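import Pool.Agent.Helper95.Sol.DR
import Mathlib.RingTheory.Noetherian.Nilpotent
import Mathlib.RingTheory.Ideal.MinimalPrime.Noetherian
import Mathlib.RingTheory.LocalRing.ResidueField.Ideal
import Mathlib.RingTheory.FiniteType

/-!
# Congruence subgroups of nilpotent ideals, and subrings of finite type
-/

set_option autoImplicit false

open scoped commutatorElement

namespace Pool.Agent.Helper95.Sol

universe v x y

/-- the congruence subgroup of an ideal -/
def cong {R : Type x} [CommRing R] (n : ℕ) (J : Ideal R) :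
    Subgroup (Matrix.GeneralLinearGroup (Fin n) R) :=
  (Matrix.GeneralLinearGroup.map (Ideal.Quotient.mk J)).ker

theorem map_eq_one {R : Type x} [CommRing R] {S : Type y} [CommRing S] {n : ℕ} (q : R →+* S)
    (X : Matrix.GeneralLinearGroup (Fin n) R) :
    Matrix.GeneralLinearGroup.map q X = 1 ↔
      ∀ i j, q (X.1 i j - (1 : Matrix (Fin n) (Fin n) R) i j) = 0 := by
  have h1 : ∀ i j, q ((1 : Matrix (Fin n) (Fin n) R) i j) =
      (1 : Matrix (Fin n) (Fin n) S) i j := by
    intro i j
    rw [Matrix.one_apply, Matrix.one_apply]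
    split_ifs
    · exact map_one q
    · exact map_zero q
  constructor
  · intro h i j
    rw [map_sub, h1, sub_eq_zero]
    have h2 : (Matrix.GeneralLinearGroup.map q X).1 i j = (1 : Matrix (Fin n) (Fin n) S) i j := by
      rw [h]
      rfl
    exact h2
  · intro h
    apply Units.ext
    ext i j
    have h2 := h i j
    rw [map_sub, h1, sub_eq_zero] at h2
    exact h2

theorem mem_cong {R : Type x} [CommRing R] {n : ℕ} {J : Ideal R}
    {X : Matrix.GeneralLinearGroup (Fin n) R} :
    X ∈ cong n J ↔ ∀ i j, X.1 i j - (1 : Matrix (Fin n) (Fin n) R) i j ∈ J := by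
  rw [cong, MonoidHom.mem_ker, map_eq_one]
  simp only [Ideal.Quotient.eq_zero_iff_mem]

theorem cong_bot {R : Type x} [CommRing R] (n : ℕ) : cong n (⊥ : Ideal R) = ⊥ := by
  rw [eq_bot_iff]
  intro X hX
  rw [Subgroup.mem_bot]
  apply Units.ext
  ext i j
  exact sub_eq_zero.1 ((Submodule.mem_bot R).1 (mem_cong.1 hX i j))

theorem mul_mem_pow {R : Type x} [CommRing R] {n : ℕ} {J : Ideal R} {k : ℕ} (hk : 1 ≤ k)
    {A B : Matrix (Fin n) (Fin n) R} (hA : ∀ i j, A i j ∈ J ^ k) (hB : ∀ i j, B i j ∈ J ^ k)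
    (i j : Fin n) : (A * B) i j ∈ J ^ (k + 1) := by
  rw [Matrix.mul_apply]
  refine Ideal.sum_mem _ fun l _ => ?_
  have h1 : A i l * B l j ∈ J ^ (k + k) := by
    rw [pow_add]
    exact Ideal.mul_mem_mul (hA i l) (hB l j)
  exact Ideal.pow_le_pow_right (by omega) h1

theorem comm_cong {R : Type x} [CommRing R] (n : ℕ) (J : Ideal R) (k : ℕ) (hk : 1 ≤ k) :
    ⁅cong n (J ^ k), cong n (J ^ k)⁆ ≤ cong n (J ^ (k + 1)) := by
  rw [Subgroup.commutator_le]
  intro X hX Y hY
  have hA := mem_cong.1 hX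
  have hB := mem_cong.1 hY
  set q := Ideal.Quotient.mk (J ^ (k + 1)) with hq
  show Matrix.GeneralLinearGroup.map q ⁅X, Y⁆ = 1
  rw [map_commutatorElement, commutatorElement_eq_one_iff_mul_comm, ← map_mul, ← map_mul]
  apply Units.ext
  ext i j
  show q ((X.1 * Y.1) i j) = q ((Y.1 * X.1) i j)
  rw [Ideal.Quotient.eq]
  have h1 : X.1 * Y.1 - Y.1 * X.1 = (X.1 - 1) * (Y.1 - 1) - (Y.1 - 1) * (X.1 - 1) := by
    noncomm_ring
  have h2 : (X.1 * Y.1) i j - (Y.1 * X.1) i j =
      ((X.1 - 1) * (Y.1 - 1)) i j - ((Y.1 - 1) * (X.1 - 1)) i j := by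
    rw [← Matrix.sub_apply, h1, Matrix.sub_apply]
  rw [h2]
  exact Ideal.sub_mem _ (mul_mem_pow hk hA hB i j) (mul_mem_pow hk hB hA i j)

theorem dr_cong {R : Type x} [CommRing R] (n : ℕ) (J : Ideal R) (k : ℕ) :
    dr (cong n J) k ≤ cong n (J ^ (k + 1)) := by
  induction k with
  | zero =>
    rw [zero_add, pow_one]
    exact le_refl _
  | succ k ih =>
    rw [dr_succ]
    exact (Subgroup.commutator_mono ih ih).trans (comm_cong n J (k + 1) (by omega))

theorem solv_cong {R : Type x} [CommRing R] (n : ℕ) (J : Ideal R) (hJ : IsNilpotent J) :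
    Group.IsSolvable (cong n J) := by
  obtain ⟨m, hm⟩ := hJ
  refine solv_of_dr_bot (n := m) ?_
  rw [eq_bot_iff, ← cong_bot (R := R) n]
  refine (dr_cong n J m).trans ?_
  have h1 : J ^ (m + 1) = ⊥ := by
    rw [pow_succ, hm]
    exact zero_mul J
  rw [h1]

/-- the common kernel of the reductions modulo the minimal primes of a Noetherian ring -/
theorem solv_minimal {R : Type x} [CommRing R] [IsNoetherianRing R] (n : ℕ)
    (L : Subgroup (Matrix.GeneralLinearGroup (Fin n) R))
    (hL : ∀ X ∈ L, ∀ P ∈ minimalPrimes R, ∀ i j,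
      X.1 i j - (1 : Matrix (Fin n) (Fin n) R) i j ∈ P) : Group.IsSolvable L := by
  refine solv_of_le ?_ (solv_cong n (nilradical R) (IsNoetherianRing.isNilpotent_nilradical R))
  intro X hX
  rw [mem_cong]
  intro i j
  have h1 : nilradical R = sInf (minimalPrimes R) := by
    rw [nilradical, ← Ideal.sInf_minimalPrimes]
    rfl
  rw [h1, Ideal.mem_sInf]
  intro P hP
  exact hL X hX P hP i j

theorem map_inj {R : Type x} [CommRing R] {S : Type y} [CommRing S] (n : ℕ) (q : R →+* S)
    (hq : Function.Injective q) :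
    Function.Injective (Matrix.GeneralLinearGroup.map (n := Fin n) q) := by
  rw [injective_iff_map_eq_one]
  intro X hX
  rw [map_eq_one] at hX
  apply Units.ext
  ext i j
  exact sub_eq_zero.1 (hq ((hX i j).trans (map_zero q).symm))

/-- An element of the linear group with entries in a subring, whose inverse has entries in the
subring, comes from the linear group of the subring. -/
theorem mem_range_map {R : Type x} [CommRing R] (n : ℕ) (R₀ : Subring R)
    (X : Matrix.GeneralLinearGroup (Fin n) R) (h1 : ∀ i j, X.1 i j ∈ R₀)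
    (h2 : ∀ i j, X.2 i j ∈ R₀) :
    X ∈ (Matrix.GeneralLinearGroup.map (n := Fin n) R₀.subtype).range := by
  let A : Matrix (Fin n) (Fin n) R₀ := fun i j => ⟨X.1 i j, h1 i j⟩
  let B : Matrix (Fin n) (Fin n) R₀ := fun i j => ⟨X.2 i j, h2 i j⟩
  have e : ∀ (C D : Matrix (Fin n) (Fin n) R₀),
      (∀ i j, R₀.subtype (C i j) = R₀.subtype (D i j)) → C = D := by
    intro C D h
    ext i j
    exact h i j
  have hAB : A * B = 1 := by
    refine e _ _ fun i j => ?_
    have h3 : (X.1 * X.2) i j = (1 : Matrix (Fin n) (Fin n) R) i j := by rw [X.3]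
    rw [Matrix.mul_apply] at h3
    rw [Matrix.mul_apply, map_sum, Matrix.one_apply]
    simp only [map_mul]
    refine h3.trans ?_
    rw [Matrix.one_apply]
    split_ifs
    · exact (map_one R₀.subtype).symm
    · exact (map_zero R₀.subtype).symm
  have hBA : B * A = 1 := by
    refine e _ _ fun i j => ?_
    have h3 : (X.2 * X.1) i j = (1 : Matrix (Fin n) (Fin n) R) i j := by rw [X.4]
    rw [Matrix.mul_apply] at h3
    rw [Matrix.mul_apply, map_sum, Matrix.one_apply]
    simp only [map_mul]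
    refine h3.trans ?_
    rw [Matrix.one_apply]
    split_ifs
    · exact (map_one R₀.subtype).symm
    · exact (map_zero R₀.subtype).symm
  refine ⟨⟨A, B, hAB, hBA⟩, ?_⟩
  apply Units.ext
  ext i j
  rfl

end Pool.Agent.Helper95.Sol
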