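import Pool.Agent.Helper95.Sol.SBL
import Pool.Agent.Helper95.Sol.Cong
import Mathlib.RingTheory.Adjoin.FG

/-!
# Groups that are solvable by linear over a commutative ring
-/

set_option autoImplicit false

namespace Pool.Agent.Helper95.Sol

open Pool.Agent.Helper40.Nil

universe u v w x

/-- Groups that are solvable by linear over a Noetherian commutative ring are good. -/
theorem good_of_noeth {Γ : Type v} [Group Γ] {R : Type x} [CommRing R] [IsNoetherianRing R]
    (n : ℕ) (f : Γ →* Matrix.GeneralLinearGroup (Fin n) R) (hf : Group.IsSolvable f.ker) :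
    GoodGroup.{u, v, w} Γ := by
  classical
  have h0 : Finite (minimalPrimes R) := (minimalPrimes.finite_of_isNoetherianRing R).to_subtype
  have h1 : ∀ i : minimalPrimes R, (i.1 : Ideal R).IsPrime :=
    fun i => Ideal.IsMinimalPrime.isPrime i.2
  let F : ∀ i : minimalPrimes R, Γ →*
      Matrix.GeneralLinearGroup (Fin n) ((i.1 : Ideal R).ResidueField) :=
    fun i => (Matrix.GeneralLinearGroup.map
      (algebraMap R ((i.1 : Ideal R).ResidueField))).comp f
  refine good_of_family (fun i : minimalPrimes R => (i.1 : Ideal R).ResidueField)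
    (fun _ => n) F ?_
  refine solv_ext f hf _ (⨅ i : minimalPrimes R, (Matrix.GeneralLinearGroup.map (n := Fin n)
    (algebraMap R ((i.1 : Ideal R).ResidueField))).ker) (solv_minimal n _ ?_) ?_
  · intro X hX P hP i j
    have h2 := Subgroup.mem_iInf.1 hX ⟨P, hP⟩
    rw [MonoidHom.mem_ker, map_eq_one] at h2
    have h3 : P.IsPrime := h1 ⟨P, hP⟩
    exact Ideal.algebraMap_residueField_eq_zero.1 (h2 i j)
  · intro y hy
    rw [Subgroup.mem_comap, Subgroup.mem_iInf]
    intro i
    exact Subgroup.mem_iInf.1 hy i

/-- Finitely generated groups that are solvable by linear over a commutative ring are good. -/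
theorem good_of_ring {Γ : Type v} [Group Γ] (T : Set Γ) (hT : T.Finite)
    (hΓ : Subgroup.closure T = ⊤) {R : Type x} [CommRing R] (n : ℕ)
    (f : Γ →* Matrix.GeneralLinearGroup (Fin n) R) (hf : Group.IsSolvable f.ker) :
    GoodGroup.{u, v, w} Γ := by
  classical
  let E : Set R := ⋃ t ∈ T, (Set.range (fun p : Fin n × Fin n => (f t).1 p.1 p.2) ∪
    Set.range (fun p : Fin n × Fin n => (f t).2 p.1 p.2))
  have hE : E.Finite := hT.biUnion fun t _ => (Set.finite_range _).union (Set.finite_range _)
  let R₀ : Subring R := Subring.closure E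
  have hN : IsNoetherianRing R₀ := is_noetherian_subring_closure E hE
  let j := Matrix.GeneralLinearGroup.map (n := Fin n) R₀.subtype
  have hj : Function.Injective j := map_inj n R₀.subtype Subtype.val_injective
  have hr : ∀ γ, f γ ∈ j.range := by
    have h1 : (⊤ : Subgroup Γ) ≤ j.range.comap f := by
      rw [← hΓ, Subgroup.closure_le]
      intro t ht
      refine mem_range_map n R₀ (f t) (fun a b => ?_) (fun a b => ?_)
      · refine Subring.subset_closure (Set.mem_biUnion ht (Or.inl ⟨(a, b), rfl⟩))
      · refine Subring.subset_closure (Set.mem_biUnion ht (Or.inr ⟨(a, b), rfl⟩))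
    intro γ
    exact h1 (Subgroup.mem_top γ)
  let f₀ : Γ →* Matrix.GeneralLinearGroup (Fin n) R₀ :=
    (MonoidHom.ofInjective hj).symm.toMonoidHom.comp (f.codRestrict j.range hr)
  have hf₀ : ∀ γ, j (f₀ γ) = f γ := by
    intro γ
    exact MonoidHom.apply_ofInjective_symm hj _
  refine good_of_noeth n f₀ (solv_of_le ?_ hf)
  intro γ hγ
  rw [MonoidHom.mem_ker] at hγ ⊢
  rw [← hf₀, hγ, map_one]

/-- The same for the subgroup generated by two elements. -/
theorem good_of_pair {Γ : Type v} [Group Γ] (a b : Γ) {R : Type x} [CommRing R] (n : ℕ)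
    (f : Subgroup.closure ({a, b} : Set Γ) →* Matrix.GeneralLinearGroup (Fin n) R)
    (hf : Group.IsSolvable f.ker) :
    GoodGroup.{u, v, w} (Subgroup.closure ({a, b} : Set Γ)) := by
  refine good_of_ring (Subtype.val ⁻¹' ({a, b} : Set Γ)) ?_ ?_ n f hf
  · exact Set.Finite.preimage Subtype.val_injective.injOn (Set.toFinite _)
  · exact Subgroup.closure_closure_coe_preimage

end Pool.Agent.Helper95.Sol
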