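import Pool.Agent.Helper95.Sol.GT

/-!
# Derived series of subgroups
-/

set_option autoImplicit false

open scoped commutatorElement

namespace Pool.Agent.Helper95.Sol

universe v x

theorem dr_succ {Γ : Type v} [Group Γ] (H : Subgroup Γ) (n : ℕ) :
    dr H (n + 1) = ⁅dr H n, dr H n⁆ := rfl

theorem dr_add {Γ : Type v} [Group Γ] (H : Subgroup Γ) (s : ℕ) :
    ∀ k, dr H (s + k) = dr (dr H s) k := by
  intro k
  induction k with
  | zero => rfl
  | succ k ih => rw [← add_assoc, dr_succ, dr_succ, ih]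

theorem dr_anti {Γ : Type v} [Group Γ] (H : Subgroup Γ) {s k : ℕ} (h : s ≤ k) :
    dr H k ≤ dr H s := by
  induction h with
  | refl => exact le_refl _
  | step _ ih => exact (dr_succ_le H _).trans ih

theorem dr_bot_of_solv {Γ : Type v} [Group Γ] {H : Subgroup Γ} (h : Group.IsSolvable H) :
    ∃ n, dr H n = ⊥ := by
  obtain ⟨n, hn⟩ := (Group.isSolvable_def _).1 h
  exact ⟨n, by rw [← map_derived, hn, Subgroup.map_bot]⟩

theorem solv_of_dr_bot {Γ : Type v} [Group Γ] {H : Subgroup Γ} {n : ℕ} (h : dr H n = ⊥) :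
    Group.IsSolvable H := by
  refine (Group.isSolvable_def _).2 ⟨n, ?_⟩
  have h4 : (derivedSeries H n).map H.subtype = ⊥ := by
    rw [map_derived, h]
  exact (Subgroup.map_eq_bot_iff_of_injective _ H.subtype_injective).1 h4

theorem dr_map_le {Γ : Type v} [Group Γ] {Λ : Type x} [Group Λ] (f : Γ →* Λ) (L : Subgroup Γ)
    (S : Subgroup Λ) (h : L ≤ S.comap f) : ∀ k, dr L k ≤ (dr S k).comap f := by
  intro k
  induction k with
  | zero => exact h
  | succ k ih =>
    rw [dr_succ, dr_succ, Subgroup.commutator_le]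
    intro x hx y hy
    rw [Subgroup.mem_comap, map_commutatorElement]
    exact Subgroup.commutator_mem_commutator (ih hx) (ih hy)

/-- a subgroup of a solvable subgroup is solvable -/
theorem solv_of_le {Γ : Type v} [Group Γ] {D H : Subgroup Γ} (h : D ≤ H)
    (hH : Group.IsSolvable H) : Group.IsSolvable D :=
  Group.isSolvable_of_isSolvable_injective (Subgroup.inclusion_injective h)

/-- a subgroup with a solvable term in its derived series is solvable -/
theorem solv_of_dr {Γ : Type v} [Group Γ] {H : Subgroup Γ} {n : ℕ}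
    (h : Group.IsSolvable (dr H n)) : Group.IsSolvable H := by
  obtain ⟨r, hr⟩ := dr_bot_of_solv h
  exact solv_of_dr_bot (n := n + r) (by rw [dr_add, hr])

/-- a group with solvable image and solvable kernel -/
theorem solv_ext {Γ : Type v} [Group Γ] {Λ : Type x} [Group Λ] (f : Γ →* Λ)
    (hf : Group.IsSolvable f.ker) (H : Subgroup Γ) (S : Subgroup Λ) (hS : Group.IsSolvable S)
    (hHS : H ≤ S.comap f) : Group.IsSolvable H := by
  obtain ⟨n, hn⟩ := dr_bot_of_solv hS
  refine solv_of_dr (n := n) (solv_of_le ?_ hf)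
  intro y hy
  have h1 := dr_map_le f H S hHS n hy
  rw [Subgroup.mem_comap, hn] at h1
  exact MonoidHom.mem_ker.2 (Subgroup.mem_bot.1 h1)

/-- a group with nilpotent commutator subgroup is solvable -/
theorem solv_of_nil {Γ : Type v} [Group Γ] (S : Subgroup Γ)
    (h : Group.IsNilpotent ↥(⁅S, S⁆ : Subgroup Γ)) : Group.IsSolvable S := by
  have h1 : Group.IsSolvable ↥(⁅S, S⁆ : Subgroup Γ) := inferInstance
  exact solv_of_dr (n := 1) h1

/-- a group is solvable when finitely many homomorphisms with solvable common kernel map it to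
solvable groups -/
theorem solv_family {Γ : Type v} [Group Γ] {ι : Type x} [Finite ι] {Λ : ι → Type x}
    [∀ i, Group (Λ i)] (f : ∀ i, Γ →* Λ i) (hf : Group.IsSolvable (⨅ i, (f i).ker : Subgroup Γ))
    (L : Subgroup Γ) (S : ∀ i, Subgroup (Λ i)) (hS : ∀ i, Group.IsSolvable (S i))
    (hLS : ∀ i, L ≤ (S i).comap (f i)) : Group.IsSolvable L := by
  have hfin : Fintype ι := Fintype.ofFinite ι
  choose s hs using fun i => dr_bot_of_solv (hS i)
  refine solv_of_dr (n := ∑ i, s i) (solv_of_le ?_ hf)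
  refine le_iInf fun i => ?_
  intro y hy
  have h2 : s i ≤ ∑ i, s i := Finset.single_le_sum (fun _ _ => Nat.zero_le _) (Finset.mem_univ i)
  have h1 := dr_map_le (f i) L (S i) (hLS i) (s i) (dr_anti L h2 hy)
  rw [Subgroup.mem_comap, hs] at h1
  exact MonoidHom.mem_ker.2 (Subgroup.mem_bot.1 h1)

theorem pair_le {Γ : Type v} [Group Γ] {Λ : Type x} [Group Λ] (f : Γ →* Λ) (h g : Γ) (q Q : ℕ)
    (hq : q ∣ Q) : Subgroup.closure ({h ^ Q, g * h ^ Q * g⁻¹} : Set Γ) ≤
      (Subgroup.closure ({(f h) ^ q, f g * (f h) ^ q * (f g)⁻¹} : Set Λ)).comap f := by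
  obtain ⟨c, rfl⟩ := hq
  refine (Subgroup.closure_le _).2 ?_
  intro y hy
  set T : Set Λ := {(f h) ^ q, f g * (f h) ^ q * (f g)⁻¹} with hT
  have m1 : (f h) ^ q ∈ Subgroup.closure T :=
    Subgroup.subset_closure (Set.mem_insert _ _)
  have m2 : f g * (f h) ^ q * (f g)⁻¹ ∈ Subgroup.closure T :=
    Subgroup.subset_closure (Set.mem_insert_of_mem _ (Set.mem_singleton _))
  rcases hy with hy | hy
  · have e : f y = ((f h) ^ q) ^ c := by rw [hy, map_pow, pow_mul]
    rw [SetLike.mem_coe, Subgroup.mem_comap, e]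
    exact pow_mem m1 c
  · have e : f y = (f g * (f h) ^ q * (f g)⁻¹) ^ c := by
      rw [Set.mem_singleton_iff.1 hy, map_mul, map_mul, map_inv, map_pow, pow_mul, conj_pow]
    rw [SetLike.mem_coe, Subgroup.mem_comap, e]
    exact pow_mem m2 c

end Pool.Agent.Helper95.Sol
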