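import Pool.Agent.Helper61.Nil.FOLN

/-!
# Folner sets of solvable groups
-/

set_option autoImplicit false

namespace Pool.Agent.Helper95.Sol

open Filter Topology
open scoped Classical commutatorElement
open Pool.Agent.Helper40.Nil

universe u

/-- extensions -/
theorem fols_ext (N : Type u) [Group N] (Z : Subgroup N) [Z.Normal] (hZ : folnP Z)
    (hQ : folnP (N ⧸ Z)) : folnP N := by
  intro S ε hε
  obtain ⟨F, hF0, hF⟩ := hQ (S.image (QuotientGroup.mk : N → N ⧸ Z)) (ε / 2) (half_pos hε)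
  let σ : N ⧸ Z → N := Quotient.out
  have hσ : ∀ q : N ⧸ Z, ((σ q : N) : N ⧸ Z) = q := fun q => Quotient.out_eq' q
  have hz : ∀ (s : N) (q : N ⧸ Z), (σ ((s : N ⧸ Z) * q))⁻¹ * (s * σ q) ∈ Z := by
    intro s q
    rw [← QuotientGroup.eq_one_iff]
    rw [QuotientGroup.mk_mul, QuotientGroup.mk_inv, hσ, QuotientGroup.mk_mul, hσ]
    exact inv_mul_cancel _
  let z : N → N ⧸ Z → Z := fun s q => ⟨_, hz s q⟩
  have hzc : ∀ (s : N) (q : N ⧸ Z), s * σ q = σ ((s : N ⧸ Z) * q) * (z s q : N) := by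
    intro s q
    change _ = _ * ((σ ((s : N ⧸ Z) * q))⁻¹ * (s * σ q))
    rw [mul_inv_cancel_left]
  obtain ⟨K, hK0, hK⟩ := hZ ((S ×ˢ F).image fun x => z x.1 x.2) (ε / 2) (half_pos hε)
  let g : (N ⧸ Z) × Z → N := fun x => σ x.1 * (x.2 : N)
  have hgq : ∀ x, ((g x : N) : N ⧸ Z) = x.1 := by
    intro x
    change (((σ x.1 * (x.2 : N) : N)) : N ⧸ Z) = x.1
    rw [QuotientGroup.mk_mul, hσ, (QuotientGroup.eq_one_iff (x.2 : N)).2 x.2.2, mul_one]
  have hg : Function.Injective g := by
    rintro ⟨q, k⟩ ⟨q', k'⟩ h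
    have h1 : q = q' := by
      have := congrArg (fun n : N => (n : N ⧸ Z)) h
      simpa only [hgq] using this
    subst h1
    have h2 : (k : N) = k' := mul_left_cancel h
    rw [Prod.mk.injEq]
    exact ⟨rfl, Subtype.ext h2⟩
  refine ⟨(F ×ˢ K).image g, (hF0.product hK0).image g, fun s hs => ?_⟩
  have hcard : ((F ×ˢ K).image g).card = F.card * K.card := by
    rw [Finset.card_image_of_injective _ hg, Finset.card_product]
  have hsub : folnB ((F ×ˢ K).image g) s ⊆
      ((folnB F (s : N ⧸ Z) ×ˢ K) ∪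
        F.biUnion fun q => {q} ×ˢ folnB K (z s q)).image g := by
    intro x hx
    obtain ⟨hx1, hx2⟩ := mem_folnB.1 hx
    obtain ⟨⟨q, k⟩, hqk, rfl⟩ := Finset.mem_image.1 hx1
    obtain ⟨hq, hk⟩ := Finset.mem_product.1 hqk
    refine Finset.mem_image.2 ⟨(q, k), ?_, rfl⟩
    by_cases h1 : (s : N ⧸ Z) * q ∈ F
    · by_cases h2 : z s q * k ∈ K
      · exfalso
        apply hx2
        refine Finset.mem_image.2 ⟨((s : N ⧸ Z) * q, z s q * k),
          Finset.mem_product.2 ⟨h1, h2⟩, ?_⟩
        change σ ((s : N ⧸ Z) * q) * ((z s q * k : Z) : N) = s * (σ q * (k : N))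
        rw [← mul_assoc s, hzc, Subgroup.coe_mul]
        simp only [mul_assoc]
      · refine Finset.mem_union_right _ (Finset.mem_biUnion.2 ⟨q, hq, ?_⟩)
        exact Finset.mem_product.2 ⟨Finset.mem_singleton_self q, mem_folnB.2 ⟨hk, h2⟩⟩
    · exact Finset.mem_union_left _ (Finset.mem_product.2 ⟨mem_folnB.2 ⟨hq, h1⟩, hk⟩)
  have h1 := (Finset.card_le_card hsub).trans (Finset.card_image_le.trans
    (Finset.card_union_le _ _))
  rw [Finset.card_product] at h1
  have h2 : (F.biUnion fun q => {q} ×ˢ folnB K (z s q)).card ≤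
      ∑ q ∈ F, (folnB K (z s q)).card := by
    refine Finset.card_biUnion_le.trans (Finset.sum_le_sum fun q _ => ?_)
    rw [Finset.card_product, Finset.card_singleton, one_mul]
  have h3 : ((∑ q ∈ F, (folnB K (z s q)).card : ℕ) : ℝ) ≤
      F.card * (ε / 2 * K.card) := by
    push_cast
    calc ∑ q ∈ F, ((folnB K (z s q)).card : ℝ) ≤ ∑ q ∈ F, (ε / 2 * K.card) := by
          refine Finset.sum_le_sum fun q hq => ?_
          exact hK (z s q) (Finset.mem_image.2 ⟨(s, q), Finset.mem_product.2 ⟨hs, hq⟩, rfl⟩)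
      _ = F.card * (ε / 2 * K.card) := by rw [Finset.sum_const, nsmul_eq_mul]
  have h4 : ((((folnB F (s : N ⧸ Z)).card * K.card : ℕ)) : ℝ) ≤
      (ε / 2 * F.card) * K.card := by
    push_cast
    exact mul_le_mul_of_nonneg_right (hF _ (Finset.mem_image_of_mem _ hs)) (Nat.cast_nonneg _)
  have h5 : ((folnB ((F ×ˢ K).image g) s).card : ℝ) ≤
      (((folnB F (s : N ⧸ Z)).card * K.card : ℕ) : ℝ) +
      ((∑ q ∈ F, (folnB K (z s q)).card : ℕ) : ℝ) := by
    exact_mod_cast h1.trans (Nat.add_le_add_left h2 _)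
  rw [hcard]
  push_cast
  push_cast at h3 h4 h5
  linarith

theorem fols_trivial (N : Type u) [Group N] [Subsingleton N] : folnP N := by
  intro S ε hε
  refine ⟨{1}, Finset.singleton_nonempty 1, fun s _ => ?_⟩
  have : folnB ({1} : Finset N) s = ∅ := by
    refine Finset.filter_eq_empty_iff.2 fun k _ => ?_
    rw [not_not, Finset.mem_singleton]
    exact Subsingleton.elim _ _
  rw [this]
  simp [hε.le]

theorem fols_aux (n : ℕ) : ∀ (N : Type u) [Group N], derivedSeries N n = ⊥ → folnP N := by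
  induction n with
  | zero =>
    intro N _ h
    rw [derivedSeries_zero] at h
    have : Subsingleton N := by
      refine ⟨fun x y => ?_⟩
      have hx : x ∈ (⊥ : Subgroup N) := by
        rw [← h]
        exact Subgroup.mem_top x
      have hy : y ∈ (⊥ : Subgroup N) := by
        rw [← h]
        exact Subgroup.mem_top y
      rw [Subgroup.mem_bot.1 hx, Subgroup.mem_bot.1 hy]
    exact fols_trivial N
  | succ n ih =>
    intro N _ h
    set Z := derivedSeries N n with hZ
    have hn : Z.Normal := derivedSeries_normal N n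
    have hcomm : ∀ x y : Z, x * y = y * x := by
      intro x y
      have h1 : ⁅(x : N), (y : N)⁆ ∈ (⊥ : Subgroup N) := by
        rw [← h, derivedSeries_succ]
        exact Subgroup.commutator_mem_commutator x.2 y.2
      have h2 := Subgroup.mem_bot.1 h1
      rw [commutatorElement_eq_one_iff_mul_comm] at h2
      exact Subtype.ext h2
    have h1 : folnP Z := @foln_comm Z { (inferInstance : Group Z) with mul_comm := hcomm }
    refine fols_ext N Z h1 (ih (N ⧸ Z) ?_)
    rw [← map_derivedSeries_eq (QuotientGroup.mk'_surjective Z) n, Subgroup.map_eq_bot_iff,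
      QuotientGroup.ker_mk']

/-- Folner sets of solvable groups -/
theorem fols (N : Type u) [Group N] (hN : Group.IsSolvable N) (S : Finset N) (ε : ℝ) (hε : 0 < ε) :
    ∃ K : Finset N, K.Nonempty ∧
      ∀ s ∈ S, (Nat.card {k // k ∈ K ∧ s * k ∉ K} : ℝ) ≤ ε * K.card := by
  obtain ⟨n, hn⟩ := (Group.isSolvable_def _).1 hN
  obtain ⟨K, hK, h1⟩ := fols_aux n N hn S ε hε
  refine ⟨K, hK, fun s hs => ?_⟩
  rw [Nat.subtype_card (folnB K s) (fun x => mem_folnB)]
  exact h1 s hs

end Pool.Agent.Helper95.Sol
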