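import Mathlib

/-!
# Locally quasi-unipotent endomorphisms
-/

set_option autoImplicit false

namespace Pool.Agent.Helper95.Sol

universe u

variable {V : Type u} [AddCommGroup V]

/-- `X` is locally quasi-unipotent -/
def QU (X : AddMonoid.End V) : Prop := ∀ v : V, ∃ k e : ℕ, 1 ≤ k ∧ ((X ^ k - 1) ^ e) v = 0

theorem end_mul_apply (X Y : AddMonoid.End V) (v : V) : (X * Y) v = X (Y v) := rfl

theorem end_sub_apply (X Y : AddMonoid.End V) (v : V) : (X - Y) v = X v - Y v := rfl

theorem end_one_apply (v : V) : (1 : AddMonoid.End V) v = v := rfl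

theorem pow_kill {X : AddMonoid.End V} {k e : ℕ} {v : V} (h : ((X ^ k - 1) ^ e) v = 0) (s : ℕ) :
    ((X ^ (k * s) - 1) ^ e) v = 0 := by
  have h1 : X ^ (k * s) - 1 = (∑ i ∈ Finset.range s, (X ^ k) ^ i) * (X ^ k - 1) := by
    rw [geom_sum_mul, ← pow_mul]
  have hc : Commute (∑ i ∈ Finset.range s, (X ^ k) ^ i) (X ^ k - 1) := by
    refine Commute.sub_right ?_ (Commute.one_right _)
    refine Commute.sum_left _ _ _ fun i _ => ?_
    exact (Commute.refl (X ^ k)).pow_left i
  rw [h1, hc.mul_pow, end_mul_apply, h, map_zero]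

theorem kill_mono {X : AddMonoid.End V} {e f : ℕ} {v : V} (h : (X ^ e) v = 0) (hef : e ≤ f) :
    (X ^ f) v = 0 := by
  obtain ⟨d, rfl⟩ := Nat.exists_eq_add_of_le hef
  rw [add_comm, pow_add, end_mul_apply, h, map_zero]

theorem binom_kill {F K : AddMonoid.End V} (hc : Commute F K) : ∀ (i j : ℕ) (v : V),
    (F ^ i) v = 0 → (K ^ j) v = 0 → ((F - K) ^ (i + j)) v = 0 := by
  intro i
  induction i with
  | zero =>
    intro j v h _
    rw [pow_zero, end_one_apply] at h
    rw [h, map_zero]
  | succ i ih =>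
    intro j
    induction j with
    | zero =>
      intro v _ h
      rw [pow_zero, end_one_apply] at h
      rw [h, map_zero]
    | succ j jh =>
      intro v hF hK
      have e1 : i + 1 + (j + 1) = (i + 1 + j) + 1 := by ring
      rw [e1, pow_succ, end_mul_apply, end_sub_apply, map_sub]
      have h1 : ((F - K) ^ (i + 1 + j)) (F v) = 0 := by
        have e2 : i + 1 + j = i + (j + 1) := by ring
        rw [e2]
        refine ih (j + 1) (F v) ?_ ?_
        · rw [← end_mul_apply, ← pow_succ]
          exact hF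
        · rw [← end_mul_apply, ← (hc.pow_right (j + 1)).eq, end_mul_apply, hK, map_zero]
      have h2 : ((F - K) ^ (i + 1 + j)) (K v) = 0 := by
        refine jh (K v) ?_ ?_
        · rw [← end_mul_apply, (hc.pow_left (i + 1)).eq, end_mul_apply, hF, map_zero]
        · rw [← end_mul_apply, ← pow_succ]
          exact hK
      rw [h1, h2, sub_zero]

/-- `Z` is locally quasi-unipotent if the commuting maps `X` and `Z X` are -/
theorem QU.of_mul {X Z Y : AddMonoid.End V} (hc : Commute Z X) (hYX : Y * X = 1) (hX : QU X)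
    (hZX : QU (Z * X)) : QU Z := by
  intro v
  obtain ⟨k, e, hk, h1⟩ := hX v
  obtain ⟨l, f, hl, h2⟩ := hZX v
  have h1' := pow_kill h1 l
  have h2' := pow_kill h2 k
  rw [mul_comm l k] at h2'
  set K := k * l with hK
  have hK1 : 1 ≤ K := Nat.mul_pos hk hl
  refine ⟨K, f + e, hK1, ?_⟩
  have hQ : (Z * X) ^ K = Z ^ K * X ^ K := hc.mul_pow K
  have hcK : Commute (Z ^ K) (X ^ K) := hc.pow_pow K K
  have hPQ : Commute ((Z * X) ^ K - 1) (X ^ K - 1) := by
    rw [hQ]
    refine Commute.sub_left (Commute.sub_right ?_ (Commute.one_right _)) (Commute.one_left _)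
    exact hcK.mul_left (Commute.refl _)
  have h3 := binom_kill hPQ f e v h2' h1'
  have h4 : (Z * X) ^ K - 1 - (X ^ K - 1) = X ^ K * (Z ^ K - 1) := by
    rw [hQ, hcK.eq, mul_sub, mul_one]
    abel
  have h5 : Commute (X ^ K) (Z ^ K - 1) := Commute.sub_right hcK.symm (Commute.one_right _)
  rw [h4, h5.mul_pow, end_mul_apply] at h3
  have h6 : Y ^ (K * (f + e)) * (X ^ K) ^ (f + e) = 1 := by
    rw [← pow_mul]
    generalize K * (f + e) = n
    induction n with
    | zero => rw [pow_zero, pow_zero, one_mul]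
    | succ n ih =>
      rw [pow_succ, pow_succ', mul_assoc, ← mul_assoc Y X, hYX, one_mul, ih]
  have h7 := congrArg (Y ^ (K * (f + e))) h3
  rw [map_zero, ← end_mul_apply, h6, end_one_apply] at h7
  exact h7

theorem QU.conj {X C D : AddMonoid.End V} (hCD : C * D = 1) (hDC : D * C = 1) (hX : QU X) :
    QU (C * X * D) := by
  intro v
  obtain ⟨k, e, hk, h⟩ := hX (D v)
  refine ⟨k, e, hk, ?_⟩
  have h1 : ∀ n : ℕ, (C * X * D) ^ n = C * X ^ n * D := by
    intro n
    induction n with
    | zero => rw [pow_zero, pow_zero, mul_one, hCD]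
    | succ n ih =>
      rw [pow_succ, ih, pow_succ]
      calc C * X ^ n * D * (C * X * D) = C * X ^ n * (D * C) * X * D := by
            simp only [mul_assoc]
        _ = C * (X ^ n * X) * D := by rw [hDC, mul_one]; simp only [mul_assoc]
  have h2 : (C * X * D) ^ k - 1 = C * (X ^ k - 1) * D := by
    rw [h1, mul_sub, sub_mul, mul_one, hCD]
  have h3 : ∀ (Y : AddMonoid.End V) (n : ℕ), (C * Y * D) ^ n = C * Y ^ n * D := by
    intro Y n
    induction n with
    | zero => rw [pow_zero, pow_zero, mul_one, hCD]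
    | succ n ih =>
      rw [pow_succ, ih, pow_succ]
      calc C * Y ^ n * D * (C * Y * D) = C * Y ^ n * (D * C) * Y * D := by
            simp only [mul_assoc]
        _ = C * (Y ^ n * Y) * D := by rw [hDC, mul_one]; simp only [mul_assoc]
  rw [h2, h3, end_mul_apply, end_mul_apply, h, map_zero]

end Pool.Agent.Helper95.Sol
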