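import Pool.Agent.Helper95.Sol.Sing

/-!
# Free pairs
-/

set_option autoImplicit false

open MeasureTheory Filter Topology
open scoped LinearAlgebra.Projectivization Matrix

namespace Pool.Agent.Helper95.Sol

open Pool.Agent.Helper40.Nil
open Pool.Agent.Helper40.Lin Pool.Agent.Helper40.Mob

universe u v w x

/-- the matrix `1 1 / 0 1` -/
noncomputable def fA : Matrix.GeneralLinearGroup (Fin 2) ℚ :=
  Matrix.GeneralLinearGroup.mkOfDetNeZero !![1, 1; 0, 1] (by simp [Matrix.det_fin_two])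

/-- the matrix `1 0 / 1 1` -/
noncomputable def fB : Matrix.GeneralLinearGroup (Fin 2) ℚ :=
  Matrix.GeneralLinearGroup.mkOfDetNeZero !![1, 0; 1, 1] (by simp [Matrix.det_fin_two])

theorem fA_pow (q : ℕ) : (fA ^ q).1 = !![1, (q : ℚ); 0, 1] := by
  induction q with
  | zero =>
    ext i j
    fin_cases i <;> fin_cases j <;> simp
  | succ q ih =>
    rw [pow_succ, Units.val_mul, ih]
    have h1 : fA.1 = !![1, 1; 0, 1] := rfl
    rw [h1]
    ext i j
    fin_cases i <;> fin_cases j <;> simp [Matrix.mul_apply, Fin.sum_univ_two, add_comm]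

theorem fB_pow (q : ℕ) : (fB ^ q).1 = !![1, 0; (q : ℚ), 1] := by
  induction q with
  | zero =>
    ext i j
    fin_cases i <;> fin_cases j <;> simp
  | succ q ih =>
    rw [pow_succ, Units.val_mul, ih]
    have h1 : fB.1 = !![1, 0; 1, 1] := rfl
    rw [h1]
    ext i j
    fin_cases i <;> fin_cases j <;> simp [Matrix.mul_apply, Fin.sum_univ_two, add_comm]

theorem free_col {E : Type x} [Field E] (P : Matrix.GeneralLinearGroup (Fin 2) E)
    (M : Matrix (Fin 2) (Fin 2) E)
    (h : ((P⁻¹ : Matrix.GeneralLinearGroup (Fin 2) E).1 * M * P.1) 1 0 = 0) :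
    ∃ l : E, ∀ i, (M * P.1) i 0 = P.1 i 0 * l := by
  set N := (P⁻¹ : Matrix.GeneralLinearGroup (Fin 2) E).1 * M * P.1 with hN
  have h1 : M * P.1 = P.1 * N := by
    rw [hN, ← mul_assoc, ← mul_assoc]
    have : P.1 * (P⁻¹ : Matrix.GeneralLinearGroup (Fin 2) E).1 = 1 := P.mul_inv
    rw [this, one_mul]
  refine ⟨N 0 0, fun i => ?_⟩
  rw [h1, Matrix.mul_apply, Fin.sum_univ_two, h, mul_zero, add_zero]

theorem free_ns (q : ℕ) (hq : 1 ≤ q) : ¬ SimTri (fA ^ q).1 (fB ^ q).1 := by
  rintro ⟨P, hP⟩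
  obtain ⟨h1, h2⟩ := hP 1 0 (by decide)
  rw [fA_pow] at h1
  rw [fB_pow] at h2
  obtain ⟨l, hl⟩ := free_col P _ h1
  obtain ⟨k, hk⟩ := free_col P _ h2
  have hq0 : ((q : ℚ) : AlgebraicClosure ℚ) ≠ 0 := by
    have : (q : ℚ) ≠ 0 := Nat.cast_ne_zero.2 (by omega)
    exact_mod_cast this
  have a0 := hl 0
  have a1 := hl 1
  have b0 := hk 0
  have b1 := hk 1
  rw [Matrix.mul_apply, Fin.sum_univ_two] at a0 a1 b0 b1
  simp only [Matrix.map_apply, Matrix.of_apply, Matrix.cons_val_zero, Matrix.cons_val_one,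
    map_one, map_zero, one_mul, zero_mul, zero_add, add_zero, Matrix.cons_val',
    Matrix.cons_val_fin_one] at a0 a1 b0 b1
  -- a0 : P00 + q P10 = P00 l ; a1 : P10 = P10 l ; b0 : P00 = P00 k ; b1 : q P00 + P10 = P10 k
  have e1 : P.1 1 0 = 0 := by
    by_contra hne
    have hl1 : l = 1 := by
      have : P.1 1 0 * (l - 1) = 0 := by
        rw [mul_sub, mul_one, ← a1, sub_self]
      rcases mul_eq_zero.1 this with h | h
      · exact absurd h hne
      · exact sub_eq_zero.1 h
    rw [hl1, mul_one] at a0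
    have : algebraMap ℚ (AlgebraicClosure ℚ) (q : ℚ) * P.1 1 0 = 0 := add_eq_left.1 a0
    rcases mul_eq_zero.1 this with h | h
    · apply hq0
      exact h
    · exact hne h
  have e0 : P.1 0 0 = 0 := by
    by_contra hne
    have hk1 : k = 1 := by
      have : P.1 0 0 * (k - 1) = 0 := by
        rw [mul_sub, mul_one, ← b0, sub_self]
      rcases mul_eq_zero.1 this with h | h
      · exact absurd h hne
      · exact sub_eq_zero.1 h
    rw [hk1, mul_one] at b1
    have : algebraMap ℚ (AlgebraicClosure ℚ) (q : ℚ) * P.1 0 0 = 0 := add_eq_right.1 b1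
    rcases mul_eq_zero.1 this with h | h
    · apply hq0
      exact h
    · exact hne h
  have hdet : P.1.det = 0 := by
    rw [Matrix.det_fin_two, e0, e1]
    ring
  have hu : IsUnit P.1.det := (Matrix.isUnit_iff_isUnit_det _).1 P.isUnit
  rw [hdet] at hu
  exact not_isUnit_zero hu

theorem free_sing {Γ : Type v} [Group Γ] (a b : Γ)
    (hinj : Function.Injective (FreeGroup.lift (![a, b] : Fin 2 → Γ))) :
    ∃ q : ℕ, 1 ≤ q ∧ SingPair (a ^ q) (b ^ q) := by
  have hr : Subgroup.closure ({a, b} : Set Γ) = (FreeGroup.lift (![a, b] : Fin 2 → Γ)).range := by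
    rw [FreeGroup.range_lift_eq_closure]
    congr 1
    ext y
    simp only [Set.mem_insert_iff, Set.mem_singleton_iff, Set.mem_range, Fin.exists_fin_two,
      Matrix.cons_val_zero, Matrix.cons_val_one, eq_comm]
  let e := MonoidHom.ofInjective hinj
  let f : Subgroup.closure ({a, b} : Set Γ) →* Matrix.GeneralLinearGroup (Fin 2) ℚ :=
    (FreeGroup.lift (![fA, fB] : Fin 2 → Matrix.GeneralLinearGroup (Fin 2) ℚ)).comp
      (e.symm.toMonoidHom.comp (Subgroup.inclusion hr.le))
  have hf : ∀ (i : Fin 2) (y : Subgroup.closure ({a, b} : Set Γ)),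
      (y : Γ) = (![a, b] : Fin 2 → Γ) i →
      f y = (![fA, fB] : Fin 2 → Matrix.GeneralLinearGroup (Fin 2) ℚ) i := by
    intro i y hy
    have h1 : e (FreeGroup.of i) = Subgroup.inclusion hr.le y := by
      apply Subtype.ext
      show FreeGroup.lift (![a, b] : Fin 2 → Γ) (FreeGroup.of i) = (y : Γ)
      rw [FreeGroup.lift_apply_of, hy]
    show FreeGroup.lift _ (e.symm (Subgroup.inclusion hr.le y)) = _
    rw [← h1, e.symm_apply_apply, FreeGroup.lift_apply_of]
  refine sing_rep a b 2 f ⟨a, Subgroup.subset_closure (Set.mem_insert _ _)⟩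
    ⟨b, Subgroup.subset_closure (Set.mem_insert_of_mem _ (Set.mem_singleton _))⟩ rfl rfl
    (fun q hq => ?_)
  rw [hf 0 _ rfl, hf 1 _ rfl]
  exact free_ns q hq

end Pool.Agent.Helper95.Sol
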