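import Mathlib
import Pool.Agent.Helper95.Sol.End

/-!
# Lower central series of subgroups and sections
-/

set_option autoImplicit false

namespace Pool.Agent.Helper95.Sol

universe u

open scoped commutatorElement

variable {G : Type u} [Group G]

/-- `H` normalizes `A` -/
def Nrm (H A : Subgroup G) : Prop := ∀ h ∈ H, ∀ v ∈ A, h * v * h⁻¹ ∈ A

/-- lower central series of the subgroup `H` in the ambient group -/
def lc (H : Subgroup G) : ℕ → Subgroup G
  | 0 => H
  | n + 1 => ⁅lc H n, H⁆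

/-- left normed commutators in `a` and `b` -/
def W (a b : G) : ℕ → Set G
  | 0 => {a, b}
  | n + 1 => Set.image2 (fun w x => ⁅w, x⁆) (W a b n) {a, b}

theorem W_finite (a b : G) (n : ℕ) : (W a b n).Finite := by
  induction n with
  | zero => exact (Set.finite_singleton b).insert a
  | succ n ih => exact Set.Finite.image2 _ ih ((Set.finite_singleton b).insert a)

theorem lc_le (H : Subgroup G) (n : ℕ) : lc H n ≤ H := by
  induction n with
  | zero => exact le_refl _
  | succ n ih =>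
    refine Subgroup.commutator_le.2 fun x hx y hy => ?_
    rw [commutatorElement_def]
    exact H.mul_mem (H.mul_mem (H.mul_mem (ih hx) hy) (H.inv_mem (ih hx))) (H.inv_mem hy)

theorem Nrm.mono {H H' A : Subgroup G} (h : Nrm H A) (hH : H' ≤ H) : Nrm H' A :=
  fun x hx v hv => h x (hH hx) v hv

theorem Nrm.self (H : Subgroup G) : Nrm H H := fun _ hx _ hv =>
  H.mul_mem (H.mul_mem hx hv) (H.inv_mem hx)

theorem Nrm.comm {H A B : Subgroup G} (hA : Nrm H A) (hB : Nrm H B) : Nrm H ⁅A, B⁆ := by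
  intro x hx v hv
  have : ⁅A, B⁆ ≤ Subgroup.comap (MulAut.conj x).toMonoidHom ⁅A, B⁆ := by
    refine Subgroup.commutator_le.2 fun y hy z hz => ?_
    rw [Subgroup.mem_comap]
    have e : (MulAut.conj x).toMonoidHom ⁅y, z⁆ = ⁅x * y * x⁻¹, x * z * x⁻¹⁆ := by
      rw [map_commutatorElement]
      rfl
    rw [e]
    exact Subgroup.commutator_mem_commutator (hA x hx y hy) (hB x hx z hz)
  exact this hv

theorem lc_nrm (H : Subgroup G) (n : ℕ) : Nrm H (lc H n) := by
  induction n with
  | zero => exact Nrm.self H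
  | succ n ih => exact ih.comm (Nrm.self H)

theorem comm_le_of_nrm {H A : Subgroup G} (h : Nrm H A) : ⁅A, H⁆ ≤ A := by
  refine Subgroup.commutator_le.2 fun x hx y hy => ?_
  have : ⁅x, y⁆ = x * (y * x⁻¹ * y⁻¹) := by
    rw [commutatorElement_def]
    group
  rw [this]
  exact A.mul_mem hx (h y hy _ (A.inv_mem hx))

theorem lc_succ_le (H : Subgroup G) (n : ℕ) : lc H (n + 1) ≤ lc H n :=
  comm_le_of_nrm (lc_nrm H n)

theorem lc_anti (H : Subgroup G) {m n : ℕ} (h : m ≤ n) : lc H n ≤ lc H m := by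
  induction h with
  | refl => exact le_refl _
  | step _ ih => exact (lc_succ_le H _).trans ih

theorem lc_mono {H H' : Subgroup G} (h : H' ≤ H) (n : ℕ) : lc H' n ≤ lc H n := by
  induction n with
  | zero => exact h
  | succ n ih => exact Subgroup.commutator_mono ih h

/-- the elements of `H` with all commutators with `H` in `B` -/
def cenMod (H B : Subgroup G) (hB : Nrm H B) : Subgroup G where
  carrier := {y | y ∈ H ∧ ∀ h ∈ H, ⁅y, h⁆ ∈ B}
  one_mem' := ⟨H.one_mem, fun h _ => by
    rw [commutatorElement_one_left]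
    exact B.one_mem⟩
  mul_mem' := by
    rintro y z ⟨hy, hy'⟩ ⟨hz, hz'⟩
    refine ⟨H.mul_mem hy hz, fun h hh => ?_⟩
    have e : ⁅y * z, h⁆ = (y * ⁅z, h⁆ * y⁻¹) * ⁅y, h⁆ := by
      simp only [commutatorElement_def]
      group
    rw [e]
    exact B.mul_mem (hB y hy _ (hz' h hh)) (hy' h hh)
  inv_mem' := by
    rintro y ⟨hy, hy'⟩
    refine ⟨H.inv_mem hy, fun h hh => ?_⟩
    have e : ⁅y⁻¹, h⁆ = y⁻¹ * ⁅y, h⁆⁻¹ * y⁻¹⁻¹ := by
      simp only [commutatorElement_def]
      group
    rw [e]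
    exact hB y⁻¹ (H.inv_mem hy) _ (B.inv_mem (hy' h hh))

/-- the elements of `H` whose commutator with `w` lies in `B` -/
def cenOf (H B : Subgroup G) (hB : Nrm H B) (w : G) (hw : w ∈ H) : Subgroup G where
  carrier := {h | h ∈ H ∧ ⁅w, h⁆ ∈ B}
  one_mem' := ⟨H.one_mem, by
    rw [commutatorElement_one_right]
    exact B.one_mem⟩
  mul_mem' := by
    rintro y z ⟨hy, hy'⟩ ⟨hz, hz'⟩
    refine ⟨H.mul_mem hy hz, ?_⟩
    have e : ⁅w, y * z⁆ = ⁅w, y⁆ * (y * ⁅w, z⁆ * y⁻¹) := by
      simp only [commutatorElement_def]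
      group
    rw [e]
    exact B.mul_mem hy' (hB y hy _ hz')
  inv_mem' := by
    rintro y ⟨hy, hy'⟩
    refine ⟨H.inv_mem hy, ?_⟩
    have e : ⁅w, y⁻¹⁆ = y⁻¹ * ⁅w, y⁆⁻¹ * y⁻¹⁻¹ := by
      simp only [commutatorElement_def]
      group
    rw [e]
    exact hB y⁻¹ (H.inv_mem hy) _ (B.inv_mem hy')

theorem W_sub (a b : G) (n : ℕ) : ∀ w ∈ W a b n, w ∈ lc (Subgroup.closure {a, b}) n := by
  induction n with
  | zero => exact fun w hw => Subgroup.subset_closure hw
  | succ n ih =>
    rintro _ ⟨w, hw, x, hx, rfl⟩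
    exact Subgroup.commutator_mem_commutator (ih w hw) (Subgroup.subset_closure hx)

/-- the terms of the lower central series are generated as normal subgroups by the left normed
commutators -/
theorem lc_le_of_W (a b : G) (n : ℕ) : ∀ B : Subgroup G, Nrm (Subgroup.closure {a, b}) B →
    (∀ w ∈ W a b n, w ∈ B) → lc (Subgroup.closure {a, b}) n ≤ B := by
  induction n with
  | zero => exact fun B _ h => (Subgroup.closure_le B).2 h
  | succ n ih =>
    intro B hB h
    set H := Subgroup.closure ({a, b} : Set G) with hH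
    have h1 : lc H n ≤ cenMod H B hB := by
      refine ih (cenMod H B hB) ?_ ?_
      · rintro x hx v ⟨hv, hv'⟩
        refine ⟨H.mul_mem (H.mul_mem hx hv) (H.inv_mem hx), fun h hh => ?_⟩
        have e : ⁅x * v * x⁻¹, h⁆ = x * ⁅v, x⁻¹ * h * x⁆ * x⁻¹ := by
          simp only [commutatorElement_def]
          group
        rw [e]
        exact hB x hx _ (hv' _ (H.mul_mem (H.mul_mem (H.inv_mem hx) hh) hx))
      · intro w hw
        have hwH : w ∈ H := lc_le H n (W_sub a b n w hw)
        refine ⟨hwH, fun y hy => ?_⟩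
        have h2 : H ≤ cenOf H B hB w hwH :=
          (Subgroup.closure_le _).2 fun x hx =>
            ⟨Subgroup.subset_closure hx, h _ ⟨w, hw, x, hx, rfl⟩⟩
        exact (h2 hy).2
    refine Subgroup.commutator_le.2 fun x hx y hy => ?_
    exact (h1 hx).2 y hy

/-! ### Sections as modules -/

theorem exists_sec (H A B : Subgroup G) (hBA : B ≤ A) (hc : ⁅A, A⁆ ≤ B) (nA : Nrm H A)
    (nB : Nrm H B) : ∃ (V : Type u) (_ : AddCommGroup V) (π : G → V) (ρ : G → AddMonoid.End V),
    (∀ u ∈ A, ∀ v ∈ A, π (u * v) = π u + π v) ∧ (∀ w : V, ∃ v ∈ A, π v = w) ∧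
    (∀ v ∈ A, π v = 0 ↔ v ∈ B) ∧ ∀ h ∈ H, ∀ v ∈ A, ρ h (π v) = π (h * v * h⁻¹) := by
  classical
  have hn : (B.subgroupOf A).Normal := by
    refine ⟨fun b hb a => ?_⟩
    rw [Subgroup.mem_subgroupOf] at hb ⊢
    have e : ((a * b * a⁻¹ : A) : G) = ⁅(a : G), (b : G)⁆ * b := by
      rw [commutatorElement_def]
      push_cast
      group
    rw [e]
    exact B.mul_mem (hc (Subgroup.commutator_mem_commutator a.2 b.2)) hb
  let Q := A ⧸ B.subgroupOf A
  let i1 : CommGroup Q := { (inferInstance : Group (A ⧸ B.subgroupOf A)) with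
    mul_comm := by
      intro x y
      obtain ⟨x, rfl⟩ := QuotientGroup.mk_surjective x
      obtain ⟨y, rfl⟩ := QuotientGroup.mk_surjective y
      have : ((x * y : A) : A ⧸ B.subgroupOf A) = ((y * x : A) : A ⧸ B.subgroupOf A) := by
        rw [QuotientGroup.eq, Subgroup.mem_subgroupOf]
        have e : (((x * y)⁻¹ * (y * x) : A) : G) = ⁅(y : G)⁻¹, (x : G)⁻¹⁆ := by
          rw [commutatorElement_def]
          push_cast
          group
        rw [e]
        exact hc (Subgroup.commutator_mem_commutator (A.inv_mem y.2) (A.inv_mem x.2))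
      exact this }
  let π : G → Additive Q := fun v => if h : v ∈ A then
    Additive.ofMul (QuotientGroup.mk (⟨v, h⟩ : A) : A ⧸ B.subgroupOf A) else 0
  have hπ : ∀ v (h : v ∈ A), π v =
      Additive.ofMul (QuotientGroup.mk (⟨v, h⟩ : A) : A ⧸ B.subgroupOf A) := fun v h => by
    simp only [π, dif_pos h]
  have hπm : ∀ u ∈ A, ∀ v ∈ A, π (u * v) = π u + π v := by
    intro u hu v hv
    rw [hπ u hu, hπ v hv, hπ _ (A.mul_mem hu hv)]
    rfl
  have hπs : ∀ w : Additive Q, ∃ v ∈ A, π v = w := by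
    intro w
    obtain ⟨v, hv⟩ := QuotientGroup.mk_surjective (s := B.subgroupOf A) (Additive.toMul w)
    refine ⟨v, v.2, ?_⟩
    rw [hπ _ v.2]
    exact congrArg Additive.ofMul hv
  have hπ0 : ∀ v ∈ A, π v = 0 ↔ v ∈ B := by
    intro v hv
    rw [hπ v hv]
    have e : (Additive.ofMul (QuotientGroup.mk (⟨v, hv⟩ : A) : A ⧸ B.subgroupOf A) = 0) ↔
        ((⟨v, hv⟩ : A) : A ⧸ B.subgroupOf A) = 1 := Iff.rfl
    rw [e, QuotientGroup.eq_one_iff, Subgroup.mem_subgroupOf]
  -- the action
  have hex : ∀ h ∈ H, ∃ f : AddMonoid.End (Additive Q), ∀ v ∈ A, f (π v) = π (h * v * h⁻¹) := by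
    intro h hh
    let c : A →* A :=
      { toFun := fun v => ⟨h * v * h⁻¹, nA h hh v v.2⟩
        map_one' := by
          apply Subtype.ext
          show h * 1 * h⁻¹ = 1
          group
        map_mul' := fun x y => by
          apply Subtype.ext
          show h * ((x : G) * y) * h⁻¹ = (h * x * h⁻¹) * (h * y * h⁻¹)
          group }
    have hle : B.subgroupOf A ≤ (B.subgroupOf A).comap c := by
      intro b hb
      rw [Subgroup.mem_comap, Subgroup.mem_subgroupOf]
      exact nB h hh _ (Subgroup.mem_subgroupOf.1 hb)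
    let f : Q →* Q := QuotientGroup.map (B.subgroupOf A) (B.subgroupOf A) c hle
    refine ⟨MonoidHom.toAdditive f, fun v hv => ?_⟩
    rw [hπ v hv, hπ _ (nA h hh v hv)]
    rfl
  let ρ : G → AddMonoid.End (Additive Q) := fun h => if hh : h ∈ H then (hex h hh).choose else 0
  refine ⟨Additive Q, inferInstance, π, ρ, hπm, hπs, hπ0, fun h hh v hv => ?_⟩
  simp only [ρ, dif_pos hh]
  exact (hex h hh).choose_spec v hv

end Pool.Agent.Helper95.Sol
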