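import Mathlib
import Pool.Agent.Helper95.Sol.Sec

/-!
# The module step
-/

set_option autoImplicit false

namespace Pool.Agent.Helper95.Sol

universe u

open scoped commutatorElement

variable {G : Type u} [Group G]

/-- the map `v ↦ [y, v]` -/
def dl (y v : G) : G := y * v * y⁻¹ * v⁻¹

/-- `A/B` is commutative and normalized by `⟨a, b⟩`, and `a`, `b` act locally quasi-unipotently -/
structure Sc (a b : G) (A B : Subgroup G) : Prop where
  le : B ≤ A
  comm : ⁅A, A⁆ ≤ B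
  nA : Nrm (Subgroup.closure {a, b}) A
  nB : Nrm (Subgroup.closure {a, b}) B
  qa : ∀ v ∈ A, ∃ k e : ℕ, 1 ≤ k ∧ (dl (a ^ k))^[e] v ∈ B
  qb : ∀ v ∈ A, ∃ k e : ℕ, 1 ≤ k ∧ (dl (b ^ k))^[e] v ∈ B

/-- the section `A/B` as a module -/
structure Md (H A B : Subgroup G) {V : Type u} [AddCommGroup V] (π : G → V)
    (ρ : G → AddMonoid.End V) : Prop where
  nA : Nrm H A
  add : ∀ u ∈ A, ∀ v ∈ A, π (u * v) = π u + π v
  surj : ∀ w : V, ∃ v ∈ A, π v = w
  ker : ∀ v ∈ A, π v = 0 ↔ v ∈ B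
  act : ∀ h ∈ H, ∀ v ∈ A, ρ h (π v) = π (h * v * h⁻¹)

namespace Md

variable {H A B : Subgroup G} {V : Type u} [AddCommGroup V] {π : G → V}
  {ρ : G → AddMonoid.End V}

theorem mul (M : Md H A B π ρ) {x y : G} (hx : x ∈ H) (hy : y ∈ H) : ρ (x * y) = ρ x * ρ y := by
  ext w
  obtain ⟨v, hv, rfl⟩ := M.surj w
  rw [end_mul_apply, M.act _ (H.mul_mem hx hy) v hv, M.act y hy v hv,
    M.act x hx _ (M.nA y hy v hv)]
  congr 1
  group

theorem one (M : Md H A B π ρ) : ρ 1 = 1 := by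
  ext w
  obtain ⟨v, hv, rfl⟩ := M.surj w
  rw [end_one_apply, M.act _ H.one_mem v hv]
  congr 1
  group

theorem pow (M : Md H A B π ρ) {x : G} (hx : x ∈ H) (n : ℕ) : ρ (x ^ n) = ρ x ^ n := by
  induction n with
  | zero => rw [pow_zero, pow_zero, M.one]
  | succ n ih => rw [pow_succ, pow_succ, M.mul (H.pow_mem hx n) hx, ih]

theorem inv_mul (M : Md H A B π ρ) {x : G} (hx : x ∈ H) : ρ x⁻¹ * ρ x = 1 := by
  rw [← M.mul (H.inv_mem hx) hx, inv_mul_cancel, M.one]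

theorem mul_inv (M : Md H A B π ρ) {x : G} (hx : x ∈ H) : ρ x * ρ x⁻¹ = 1 := by
  rw [← M.mul hx (H.inv_mem hx), mul_inv_cancel, M.one]

theorem pi_one (M : Md H A B π ρ) : π 1 = 0 := by
  have h := M.add 1 A.one_mem 1 A.one_mem
  rw [mul_one] at h
  exact left_eq_add.1 h

theorem pi_inv (M : Md H A B π ρ) {v : G} (hv : v ∈ A) : π v⁻¹ = -π v := by
  have h := M.add v hv v⁻¹ (A.inv_mem hv)
  rw [mul_inv_cancel, M.pi_one] at h
  exact (neg_eq_of_add_eq_zero_right h.symm).symm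

theorem dl (M : Md H A B π ρ) {x v : G} (hx : x ∈ H) (hv : v ∈ A) :
    Sol.dl x v ∈ A ∧ π (Sol.dl x v) = (ρ x - 1) (π v) := by
  have h1 := M.nA x hx v hv
  refine ⟨A.mul_mem h1 (A.inv_mem hv), ?_⟩
  unfold Sol.dl
  rw [M.add _ h1 _ (A.inv_mem hv), M.pi_inv hv, end_sub_apply, end_one_apply, M.act x hx v hv,
    sub_eq_add_neg]

theorem dl_iter (M : Md H A B π ρ) {x v : G} (hx : x ∈ H) (hv : v ∈ A) (e : ℕ) :
    (Sol.dl x)^[e] v ∈ A ∧ π ((Sol.dl x)^[e] v) = ((ρ x - 1) ^ e) (π v) := by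
  induction e with
  | zero => exact ⟨hv, rfl⟩
  | succ e ih =>
    rw [Function.iterate_succ_apply']
    have h := M.dl hx ih.1
    refine ⟨h.1, ?_⟩
    rw [h.2, ih.2, ← end_mul_apply, ← pow_succ']

theorem triv (M : Md H A B π ρ) {x : G} (hx : x ∈ H)
    (h : ∀ v ∈ A, x * v * x⁻¹ * v⁻¹ ∈ B) : ρ x = 1 := by
  ext w
  obtain ⟨v, hv, rfl⟩ := M.surj w
  have h1 := M.dl hx hv
  have h2 : π (Sol.dl x v) = 0 := (M.ker _ h1.1).2 (h v hv)
  rw [h1.2, end_sub_apply, sub_eq_zero] at h2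
  exact h2

end Md

/-- the preimage of a subgroup of the module -/
def pre {H A B : Subgroup G} {V : Type u} [AddCommGroup V] {π : G → V}
    {ρ : G → AddMonoid.End V} (M : Md H A B π ρ) (W : AddSubgroup V) : Subgroup G where
  carrier := {v | v ∈ A ∧ π v ∈ W}
  one_mem' := ⟨A.one_mem, by
    rw [M.pi_one]
    exact W.zero_mem⟩
  mul_mem' := by
    rintro x y ⟨hx, hx'⟩ ⟨hy, hy'⟩
    refine ⟨A.mul_mem hx hy, ?_⟩
    rw [M.add x hx y hy]
    exact W.add_mem hx' hy'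
  inv_mem' := by
    rintro x ⟨hx, hx'⟩
    refine ⟨A.inv_mem hx, ?_⟩
    rw [M.pi_inv hx]
    exact W.neg_mem hx'

/-- invariant subgroups -/
def Inv {V : Type u} [AddCommGroup V] (H : Subgroup G) (ρ : G → AddMonoid.End V)
    (W : AddSubgroup V) : Prop := ∀ h ∈ H, ∀ w ∈ W, ρ h w ∈ W

theorem pre_nrm {H A B : Subgroup G} {V : Type u} [AddCommGroup V] {π : G → V}
    {ρ : G → AddMonoid.End V} (M : Md H A B π ρ) {W : AddSubgroup V} (hW : Inv H ρ W) :
    Nrm H (pre M W) := by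
  rintro h hh v ⟨hv, hv'⟩
  refine ⟨M.nA h hh v hv, ?_⟩
  rw [← M.act h hh v hv]
  exact hW h hh _ hv'

theorem uni {V : Type u} [AddCommGroup V] (s : Finset (AddMonoid.End V × V)) :
    (∀ p ∈ s, ∃ k e : ℕ, 1 ≤ k ∧ ((p.1 ^ k - 1) ^ e) p.2 = 0) →
    ∃ k e : ℕ, 1 ≤ k ∧ ∀ p ∈ s, ((p.1 ^ k - 1) ^ e) p.2 = 0 := by
  classical
  induction s using Finset.induction_on with
  | empty => exact fun _ => ⟨1, 0, le_refl _, by simp⟩
  | insert p s hp ih =>
    intro h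
    obtain ⟨k, e, hk, h1⟩ := ih fun q hq => h q (Finset.mem_insert_of_mem hq)
    obtain ⟨l, f, hl, h2⟩ := h p (Finset.mem_insert_self p s)
    refine ⟨k * l, max e f, Nat.mul_pos hk hl, fun q hq => ?_⟩
    rcases Finset.mem_insert.1 hq with rfl | hq
    · rw [mul_comm]
      exact kill_mono (pow_kill h2 k) (le_max_right _ _)
    · exact kill_mono (pow_kill (h1 q hq) l) (le_max_left _ _)

/-- the statement of the module step, for actions of class at most `c` -/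
def PP (G : Type u) [Group G] (c : ℕ) : Prop := ∀ (a b : G) (A B : Subgroup G), Sc a b A B →
  (∀ z ∈ lc (Subgroup.closure {a, b}) c, ∀ v ∈ A, z * v * z⁻¹ * v⁻¹ ∈ B) →
  (∃ n, lc (Subgroup.closure {a, b}) n ≤ A) →
  ∃ m : ℕ, 1 ≤ m ∧ ∃ n, lc (Subgroup.closure {a ^ m, b ^ m}) n ≤ B

theorem pp_zero : PP G 0 := by
  rintro a b A B hS ht ⟨n, hn⟩
  refine ⟨1, le_refl _, n + 1, ?_⟩
  rw [pow_one, pow_one]
  refine Subgroup.commutator_le.2 fun v hv h hh => ?_
  have h1 := ht h hh v (hn hv)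
  have e : ⁅v, h⁆ = (h * v * h⁻¹ * v⁻¹)⁻¹ := by
    rw [commutatorElement_def]
    group
  rw [e]
  exact B.inv_mem h1

theorem closure_pow_le (a b : G) (m : ℕ) :
    Subgroup.closure ({a ^ m, b ^ m} : Set G) ≤ Subgroup.closure {a, b} := by
  have ha : a ∈ Subgroup.closure ({a, b} : Set G) := Subgroup.subset_closure (Set.mem_insert _ _)
  have hb : b ∈ Subgroup.closure ({a, b} : Set G) :=
    Subgroup.subset_closure (Set.mem_insert_of_mem _ rfl)
  refine (Subgroup.closure_le _).2 ?_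
  intro x hx
  rcases hx with hx | hx
  · rw [hx]
    exact Subgroup.pow_mem (Subgroup.closure ({a, b} : Set G)) ha m
  · rw [Set.mem_singleton_iff.1 hx]
    exact Subgroup.pow_mem (Subgroup.closure ({a, b} : Set G)) hb m

/-- sub-sections for powers of `a` and `b` -/
theorem Sc.sub {a b : G} {A B : Subgroup G} (hS : Sc a b A B) {V : Type u} [AddCommGroup V]
    {π : G → V} {ρ : G → AddMonoid.End V} (M : Md (Subgroup.closure {a, b}) A B π ρ)
    {W₁ W₂ : AddSubgroup V} (h1 : Inv (Subgroup.closure {a, b}) ρ W₁)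
    (h2 : Inv (Subgroup.closure {a, b}) ρ W₂) (h21 : W₂ ≤ W₁) (m : ℕ) :
    Sc (a ^ m) (b ^ m) (pre M W₁) (pre M W₂) := by
  have hB : B ≤ pre M W₂ := fun v hv => ⟨hS.le hv, by
    rw [(M.ker v (hS.le hv)).2 hv]
    exact W₂.zero_mem⟩
  have key : ∀ x ∈ Subgroup.closure ({a, b} : Set G), (∀ v ∈ A, ∃ k e : ℕ, 1 ≤ k ∧
      (dl (x ^ k))^[e] v ∈ B) → ∀ v ∈ pre M W₁, ∃ k e : ℕ, 1 ≤ k ∧
      (dl ((x ^ m) ^ k))^[e] v ∈ pre M W₂ := by
    intro x hx hq v hv
    obtain ⟨k, e, hk, h⟩ := hq v hv.1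
    refine ⟨k, e, hk, hB ?_⟩
    have h3 := M.dl_iter (Subgroup.pow_mem _ hx k) hv.1 e
    rw [(M.ker _ h3.1).2 h, M.pow hx] at h3
    have h4 := pow_kill h3.2.symm m
    have h5 := M.dl_iter (Subgroup.pow_mem _ (Subgroup.pow_mem _ hx m) k) hv.1 e
    rw [← pow_mul, mul_comm m k, M.pow hx, h4] at h5
    rw [← pow_mul, mul_comm m k]
    exact (M.ker _ h5.1).1 h5.2
  refine ⟨fun v hv => ⟨hv.1, h21 hv.2⟩, ?_, ?_, ?_, ?_, ?_⟩
  · refine (Subgroup.commutator_mono ?_ ?_).trans (hS.comm.trans hB)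
    · exact fun v hv => hv.1
    · exact fun v hv => hv.1
  · exact (pre_nrm M h1).mono (closure_pow_le a b m)
  · exact (pre_nrm M h2).mono (closure_pow_le a b m)
  · exact key a (Subgroup.subset_closure (Set.mem_insert _ _)) hS.qa
  · exact key b (Subgroup.subset_closure (Set.mem_insert_of_mem _ rfl)) hS.qb

section step

variable {a b : G} {A B : Subgroup G} {V : Type u} [AddCommGroup V] {π : G → V}
  {ρ : G → AddMonoid.End V}

/-- elements of the last term of the lower central series act centrally -/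
theorem cen (M : Md (Subgroup.closure {a, b}) A B π ρ) {k : ℕ}
    (ht : ∀ z ∈ lc (Subgroup.closure {a, b}) (k + 1), ∀ v ∈ A, z * v * z⁻¹ * v⁻¹ ∈ B)
    {c h : G} (hc : c ∈ lc (Subgroup.closure {a, b}) k) (hh : h ∈ Subgroup.closure ({a, b} : Set G)) :
    Commute (ρ c) (ρ h) := by
  have hcH := lc_le _ k hc
  have h1 : ⁅c, h⁆ ∈ lc (Subgroup.closure {a, b}) (k + 1) :=
    Subgroup.commutator_mem_commutator hc hh
  have h2 := M.triv (lc_le _ _ h1) (ht _ h1)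
  have e : c * h = ⁅c, h⁆ * (h * c) := by
    rw [commutatorElement_def]
    group
  have h3 : ρ (c * h) = ρ (h * c) := by
    rw [e, M.mul (lc_le _ _ h1) (Subgroup.mul_mem _ hh hcH), h2, one_mul]
  rw [M.mul hcH hh, M.mul hh hcH] at h3
  exact h3

theorem qu_of (M : Md (Subgroup.closure {a, b}) A B π ρ) {x : G}
    (hx : x ∈ Subgroup.closure ({a, b} : Set G))
    (hq : ∀ v ∈ A, ∃ k e : ℕ, 1 ≤ k ∧ (dl (x ^ k))^[e] v ∈ B) : QU (ρ x) := by
  intro w
  obtain ⟨v, hv, rfl⟩ := M.surj w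
  obtain ⟨k, e, hk, h⟩ := hq v hv
  refine ⟨k, e, hk, ?_⟩
  have h3 := M.dl_iter (Subgroup.pow_mem _ hx k) hv e
  rw [(M.ker _ h3.1).2 h, M.pow hx] at h3
  exact h3.2.symm

/-- the left normed commutators of maximal weight are locally quasi-unipotent -/
theorem qu_W (hS : Sc a b A B) (M : Md (Subgroup.closure {a, b}) A B π ρ) {k : ℕ}
    (ht : ∀ z ∈ lc (Subgroup.closure {a, b}) (k + 1), ∀ v ∈ A, z * v * z⁻¹ * v⁻¹ ∈ B) :
    ∀ z ∈ W a b k, QU (ρ z) := by
  have ha : a ∈ Subgroup.closure ({a, b} : Set G) := Subgroup.subset_closure (Set.mem_insert _ _)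
  have hb : b ∈ Subgroup.closure ({a, b} : Set G) :=
    Subgroup.subset_closure (Set.mem_insert_of_mem _ rfl)
  have hab : ∀ x ∈ ({a, b} : Set G), x ∈ Subgroup.closure ({a, b} : Set G) ∧ QU (ρ x) := by
    rintro x (rfl | rfl)
    · exact ⟨ha, qu_of M ha hS.qa⟩
    · exact ⟨hb, qu_of M hb hS.qb⟩
  cases k with
  | zero => exact fun z hz => (hab z hz).2
  | succ k =>
    rintro _ ⟨y, hy, x, hx, rfl⟩
    obtain ⟨hxH, hxq⟩ := hab x hx
    have hyH : y ∈ Subgroup.closure ({a, b} : Set G) := lc_le _ _ (W_sub a b k y hy)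
    have hz : ⁅y, x⁆ ∈ lc (Subgroup.closure {a, b}) (k + 1) :=
      W_sub a b (k + 1) _ ⟨y, hy, x, hx, rfl⟩
    refine QU.of_mul (cen M ht hz hxH) (M.inv_mul hxH) hxq ?_
    have h1 := hxq.conj (M.mul_inv hyH) (M.inv_mul hyH)
    have e : ρ ⁅y, x⁆ * ρ x = ρ y * ρ x * ρ y⁻¹ := by
      rw [← M.mul (lc_le _ _ hz) hxH, ← M.mul hyH hxH,
        ← M.mul (Subgroup.mul_mem _ hyH hxH) (Subgroup.inv_mem _ hyH)]
      congr 1
      rw [commutatorElement_def]
      group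
    rw [e]
    exact h1

/-- the `K`-th powers of all elements act trivially -/
theorem triv_pow (M : Md (Subgroup.closure {a, b}) A B π ρ) {k : ℕ}
    (ht : ∀ z ∈ lc (Subgroup.closure {a, b}) (k + 1), ∀ v ∈ A, z * v * z⁻¹ * v⁻¹ ∈ B)
    {K : ℕ} {W₁ W₂ : AddSubgroup V} (h2 : Inv (Subgroup.closure {a, b}) ρ W₂)
    (hz : ∀ z ∈ W a b k, ∀ w ∈ W₁, (ρ z ^ K - 1) w ∈ W₂) :
    ∀ c ∈ lc (Subgroup.closure {a, b}) k, ∀ w ∈ W₁, (ρ c ^ K - 1) w ∈ W₂ := by
  have hH := lc_le (Subgroup.closure ({a, b} : Set G)) k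
  have hpow : ∀ c ∈ lc (Subgroup.closure ({a, b} : Set G)) k, ∀ w ∈ W₂, (ρ c ^ K) w ∈ W₂ := by
    intro c hc w hw
    rw [← M.pow (hH hc)]
    exact h2 _ (Subgroup.pow_mem _ (hH hc) K) w hw
  let D : Subgroup G :=
    { carrier := {c | c ∈ lc (Subgroup.closure ({a, b} : Set G)) k ∧
        ∀ w ∈ W₁, (ρ c ^ K - 1) w ∈ W₂}
      one_mem' := ⟨Subgroup.one_mem _, fun w _ => by
        rw [M.one, one_pow, sub_self]
        exact W₂.zero_mem⟩
      mul_mem' := by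
        rintro x y ⟨hx, hx'⟩ ⟨hy, hy'⟩
        refine ⟨Subgroup.mul_mem _ hx hy, fun w hw => ?_⟩
        have e : ρ (x * y) ^ K - 1 = ρ x ^ K * (ρ y ^ K - 1) + (ρ x ^ K - 1) := by
          rw [M.mul (hH hx) (hH hy), (cen M ht hx (hH hy)).mul_pow, mul_sub, mul_one]
          abel
        rw [e]
        exact W₂.add_mem (hpow x hx _ (hy' w hw)) (hx' w hw)
      inv_mem' := by
        rintro x ⟨hx, hx'⟩
        refine ⟨Subgroup.inv_mem _ hx, fun w hw => ?_⟩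
        have e1 : ρ x⁻¹ ^ K * ρ x ^ K = 1 := by
          rw [← M.pow (Subgroup.inv_mem _ (hH hx)), ← M.pow (hH hx),
            ← M.mul (Subgroup.pow_mem _ (Subgroup.inv_mem _ (hH hx)) K)
              (Subgroup.pow_mem _ (hH hx) K), inv_pow, inv_mul_cancel, M.one]
        have e : ρ x⁻¹ ^ K - 1 = -(ρ x⁻¹ ^ K * (ρ x ^ K - 1)) := by
          rw [mul_sub, e1, mul_one]
          abel
        rw [e]
        exact W₂.neg_mem (hpow _ (Subgroup.inv_mem _ hx) _ (hx' w hw)) }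
  have hD : lc (Subgroup.closure ({a, b} : Set G)) k ≤ D := by
    refine lc_le_of_W a b k D ?_ fun z hz' => ⟨W_sub a b k z hz', hz z hz'⟩
    rintro h hh c ⟨hc, hc'⟩
    refine ⟨lc_nrm _ k h hh c hc, fun w hw => ?_⟩
    have e : ρ (h * c * h⁻¹) = ρ c := by
      rw [M.mul (Subgroup.mul_mem _ hh (hH hc)) (Subgroup.inv_mem _ hh), M.mul hh (hH hc),
        ← (cen M ht hc hh).eq, mul_assoc, M.mul_inv hh, mul_one]
    rw [e]
    exact hc' w hw
  exact fun c hc => (hD hc).2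

/-- after passing to powers the last term acts trivially -/
theorem triv_m (M : Md (Subgroup.closure {a, b}) A B π ρ) {k : ℕ}
    (ht : ∀ z ∈ lc (Subgroup.closure {a, b}) (k + 1), ∀ v ∈ A, z * v * z⁻¹ * v⁻¹ ∈ B)
    {K : ℕ} {W₁ W₂ : AddSubgroup V} (h1 : Inv (Subgroup.closure {a, b}) ρ W₁)
    (h2 : Inv (Subgroup.closure {a, b}) ρ W₂)
    (hz : ∀ z ∈ W a b k, ∀ w ∈ W₁, (ρ z ^ K - 1) w ∈ W₂) {m : ℕ} (hm : K ∣ m) :
    ∀ z ∈ lc (Subgroup.closure {a ^ m, b ^ m}) k, ∀ w ∈ W₁, (ρ z - 1) w ∈ W₂ := by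
  have hT := triv_pow M ht h2 hz
  obtain ⟨s, rfl⟩ := hm
  set H := Subgroup.closure ({a, b} : Set G) with hH
  set H' := Subgroup.closure ({a ^ (K * s), b ^ (K * s)} : Set G) with hH'
  have hle : H' ≤ H := closure_pow_le a b (K * s)
  have hpw : ∀ c ∈ lc H k, ∀ w ∈ W₁, (ρ c ^ (K * s) - 1) w ∈ W₂ := by
    intro c hc w hw
    have e : ρ c ^ (K * s) = ρ (c ^ s) ^ K := by
      rw [M.pow (lc_le H k hc), ← pow_mul, mul_comm s K]
    rw [e]
    exact hT _ (Subgroup.pow_mem _ hc s) w hw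
  let D : Subgroup G :=
    { carrier := {c | c ∈ H' ∧ ∀ w ∈ W₁, (ρ c - 1) w ∈ W₂}
      one_mem' := ⟨Subgroup.one_mem _, fun w _ => by
        rw [M.one, sub_self]
        exact W₂.zero_mem⟩
      mul_mem' := by
        rintro x y ⟨hx, hx'⟩ ⟨hy, hy'⟩
        refine ⟨Subgroup.mul_mem _ hx hy, fun w hw => ?_⟩
        have e : ρ (x * y) - 1 = ρ x * (ρ y - 1) + (ρ x - 1) := by
          rw [M.mul (hle hx) (hle hy), mul_sub, mul_one]
          abel
        rw [e]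
        exact W₂.add_mem (h2 x (hle hx) _ (hy' w hw)) (hx' w hw)
      inv_mem' := by
        rintro x ⟨hx, hx'⟩
        refine ⟨Subgroup.inv_mem _ hx, fun w hw => ?_⟩
        have e : ρ x⁻¹ - 1 = -(ρ x⁻¹ * (ρ x - 1)) := by
          rw [mul_sub, M.inv_mul (hle hx), mul_one]
          abel
        rw [e]
        exact W₂.neg_mem (h2 _ (Subgroup.inv_mem _ (hle hx)) _ (hx' w hw)) }
  have hD : lc H' k ≤ D := by
    refine lc_le_of_W (a ^ (K * s)) (b ^ (K * s)) k D ?_ ?_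
    · rintro h hh c ⟨hc, hc'⟩
      refine ⟨Subgroup.mul_mem _ (Subgroup.mul_mem _ hh hc) (Subgroup.inv_mem _ hh),
        fun w hw => ?_⟩
      have e : ρ (h * c * h⁻¹) - 1 = ρ h * (ρ c - 1) * ρ h⁻¹ := by
        rw [M.mul (Subgroup.mul_mem _ (hle hh) (hle hc)) (Subgroup.inv_mem _ (hle hh)),
          M.mul (hle hh) (hle hc), mul_sub, sub_mul, mul_one, M.mul_inv (hle hh)]
      rw [e]
      exact h2 h (hle hh) _ (hc' _ (h1 _ (Subgroup.inv_mem _ (hle hh)) w hw))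
    · cases k with
      | zero =>
        rintro z hz'
        refine ⟨Subgroup.subset_closure hz', ?_⟩
        have hx : ∀ x ∈ ({a, b} : Set G), ∀ w ∈ W₁, (ρ (x ^ (K * s)) - 1) w ∈ W₂ := by
          intro x hx w hw
          rw [M.pow (Subgroup.subset_closure hx)]
          exact hpw x (Subgroup.subset_closure hx) w hw
        rcases hz' with rfl | hz'
        · exact hx a (Set.mem_insert _ _)
        · rw [Set.mem_singleton_iff.1 hz']
          exact hx b (Set.mem_insert_of_mem _ rfl)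
      | succ k =>
        rintro _ ⟨y, hy, z, hz', rfl⟩
        have hyH' : y ∈ lc H' k := W_sub _ _ k y hy
        have hyH : y ∈ lc H k := lc_mono hle k hyH'
        have hzH' : z ∈ H' := Subgroup.subset_closure hz'
        refine ⟨lc_le H' (k + 1) (Subgroup.commutator_mem_commutator hyH' hzH'), ?_⟩
        have hx : ∀ x ∈ ({a, b} : Set G), ∀ w ∈ W₁, (ρ ⁅y, x ^ (K * s)⁆ - 1) w ∈ W₂ := by
          intro x hx w hw
          have hxH : x ∈ H := Subgroup.subset_closure hx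
          have hc : ⁅y, x⁆ ∈ lc H (k + 1) := Subgroup.commutator_mem_commutator hyH hxH
          have hcH := lc_le H _ hc
          have hyHH := lc_le H _ hyH
          have hcom := cen M ht hc hxH
          have e1 : ⁅y, x ^ (K * s)⁆ = (⁅y, x⁆ * x) ^ (K * s) * (x ^ (K * s))⁻¹ := by
            have : ⁅y, x⁆ * x = y * x * y⁻¹ := by
              rw [commutatorElement_def]
              group
            rw [this, conj_pow, commutatorElement_def]
          have hxm := Subgroup.pow_mem _ hxH (K * s)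
          have e2 : ρ ⁅y, x ^ (K * s)⁆ = ρ ⁅y, x⁆ ^ (K * s) := by
            rw [e1, M.mul (Subgroup.pow_mem _ (Subgroup.mul_mem _ hcH hxH) _)
              (Subgroup.inv_mem _ hxm), M.pow (Subgroup.mul_mem _ hcH hxH), M.mul hcH hxH,
              hcom.mul_pow, mul_assoc, ← M.pow hxH, M.mul_inv hxm, mul_one]
          rw [e2]
          exact hpw _ hc w hw
        rcases hz' with rfl | hz'
        · exact hx a (Set.mem_insert _ _)
        · rw [Set.mem_singleton_iff.1 hz']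
          exact hx b (Set.mem_insert_of_mem _ rfl)
  exact fun z hz => (hD hz).2

/-- passing from `W₁` to `W₂` -/
def Pss (M : Md (Subgroup.closure {a, b}) A B π ρ) (K : ℕ) (W₁ W₂ : AddSubgroup V) : Prop :=
  ∀ m₀ : ℕ, 1 ≤ m₀ → K ∣ m₀ → (∃ n, lc (Subgroup.closure {a ^ m₀, b ^ m₀}) n ≤ pre M W₁) →
    ∃ m : ℕ, 1 ≤ m ∧ ∃ n, lc (Subgroup.closure {a ^ (m₀ * m), b ^ (m₀ * m)}) n ≤ pre M W₂

theorem Pss.trans {M : Md (Subgroup.closure {a, b}) A B π ρ} {K : ℕ} {W₁ W₂ W₃ : AddSubgroup V}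
    (h : Pss M K W₁ W₂) (h' : Pss M K W₂ W₃) : Pss M K W₁ W₃ := by
  intro m₀ h0 hK hn
  obtain ⟨m, hm, hn'⟩ := h m₀ h0 hK hn
  obtain ⟨m', hm', hn''⟩ := h' (m₀ * m) (Nat.mul_pos h0 hm) (Dvd.dvd.mul_right hK m) hn'
  refine ⟨m * m', Nat.mul_pos hm hm', ?_⟩
  rw [← mul_assoc]
  exact hn''

theorem pre_mono (M : Md (Subgroup.closure {a, b}) A B π ρ) {W₁ W₂ : AddSubgroup V}
    (h : W₁ ≤ W₂) : pre M W₁ ≤ pre M W₂ := fun _ hv => ⟨hv.1, h hv.2⟩

theorem Pss.of_le {M : Md (Subgroup.closure {a, b}) A B π ρ} {K : ℕ} {W₁ W₂ : AddSubgroup V}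
    (h : W₁ ≤ W₂) : Pss M K W₁ W₂ := by
  rintro m₀ h0 hK ⟨n, hn⟩
  refine ⟨1, le_refl _, n, ?_⟩
  rw [mul_one]
  exact hn.trans (pre_mono M h)

theorem pss_base {k : ℕ} (hP : PP G k) (hS : Sc a b A B) (M : Md (Subgroup.closure {a, b}) A B π ρ)
    (ht : ∀ z ∈ lc (Subgroup.closure {a, b}) (k + 1), ∀ v ∈ A, z * v * z⁻¹ * v⁻¹ ∈ B)
    {K : ℕ} {W₁ W₂ : AddSubgroup V} (h1 : Inv (Subgroup.closure {a, b}) ρ W₁)
    (h2 : Inv (Subgroup.closure {a, b}) ρ W₂) (h21 : W₂ ≤ W₁)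
    (hz : ∀ z ∈ W a b k, ∀ w ∈ W₁, (ρ z ^ K - 1) w ∈ W₂) : Pss M K W₁ W₂ := by
  intro m₀ h0 hK hn
  have h3 := triv_m M ht h1 h2 hz hK
  obtain ⟨m, hm, n, hn'⟩ := hP (a ^ m₀) (b ^ m₀) (pre M W₁) (pre M W₂)
    (hS.sub M h1 h2 h21 m₀) (by
      intro z hz' v hv
      have hzH := closure_pow_le a b m₀ (lc_le _ _ hz')
      have h4 := M.dl hzH hv.1
      refine ⟨h4.1, ?_⟩
      have h5 := h3 z hz' (π v) hv.2
      rw [← h4.2] at h5
      exact h5) hn
  refine ⟨m, hm, n, ?_⟩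
  rw [pow_mul, pow_mul]
  exact hn'

/-- the image of a subgroup under `ρ z ^ K - 1`, together with `W₂` -/
def nxt {V : Type u} [AddCommGroup V] (N : AddMonoid.End V) (W₁ W₂ : AddSubgroup V) :
    AddSubgroup V := W₂ ⊔ AddSubgroup.map N W₁

theorem mem_nxt {V : Type u} [AddCommGroup V] {N : AddMonoid.End V} {W₁ W₂ : AddSubgroup V}
    {w : V} : w ∈ nxt N W₁ W₂ ↔ ∃ y ∈ W₂, ∃ x ∈ W₁, y + N x = w := by
  unfold nxt
  rw [AddSubgroup.mem_sup]
  constructor
  · rintro ⟨y, hy, z, hz, h⟩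
    obtain ⟨x, hx, rfl⟩ := AddSubgroup.mem_map.1 hz
    exact ⟨y, hy, x, hx, h⟩
  · rintro ⟨y, hy, x, hx, h⟩
    exact ⟨y, hy, N x, AddSubgroup.mem_map.2 ⟨x, hx, rfl⟩, h⟩

/-- the chain of sections -/
theorem pss_chain {k : ℕ} (hP : PP G k) (hS : Sc a b A B)
    (M : Md (Subgroup.closure {a, b}) A B π ρ)
    (ht : ∀ z ∈ lc (Subgroup.closure {a, b}) (k + 1), ∀ v ∈ A, z * v * z⁻¹ * v⁻¹ ∈ B)
    {K : ℕ} (T : Finset G) : (∀ z ∈ T, z ∈ W a b k) → ∀ W₁ W₂ : AddSubgroup V,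
    Inv (Subgroup.closure {a, b}) ρ W₁ → Inv (Subgroup.closure {a, b}) ρ W₂ → W₂ ≤ W₁ →
    (∀ z ∈ W a b k, z ∉ T → ∀ w ∈ W₁, (ρ z ^ K - 1) w ∈ W₂) →
    (∀ z ∈ T, ∃ J : ℕ, ∀ w ∈ W₁, ((ρ z ^ K - 1) ^ J) w ∈ W₂) → Pss M K W₁ W₂ := by
  classical
  induction T using Finset.induction_on with
  | empty =>
    intro _ W₁ W₂ h1 h2 h21 hz _
    exact pss_base hP hS M ht h1 h2 h21 fun z hz' => hz z hz' (Finset.notMem_empty z)
  | insert z T hzT ih =>
    intro hTW W₁ W₂ h1 h2 h21 hz hJ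
    have hzW : z ∈ W a b k := hTW z (Finset.mem_insert_self z T)
    have hzl := W_sub a b k z hzW
    have hzH := lc_le _ _ hzl
    obtain ⟨J, hJz⟩ := hJ z (Finset.mem_insert_self z T)
    have hNW : ∀ (W : AddSubgroup V), Inv (Subgroup.closure {a, b}) ρ W → ∀ w ∈ W,
        (ρ z ^ K - 1) w ∈ W := by
      intro W hW w hw
      rw [end_sub_apply, end_one_apply, ← M.pow hzH]
      exact W.sub_mem (hW _ (Subgroup.pow_mem _ hzH K) w hw) hw
    induction J generalizing W₁ with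
    | zero =>
      refine Pss.of_le fun w hw => ?_
      have := hJz w hw
      rwa [pow_zero, end_one_apply] at this
    | succ J jh =>
      set W₃ := nxt (ρ z ^ K - 1) W₁ W₂ with hW3
      have h23 : W₂ ≤ W₃ := fun w hw =>
        mem_nxt.2 ⟨w, hw, 0, W₁.zero_mem, by rw [map_zero, add_zero]⟩
      have h31 : W₃ ≤ W₁ := by
        intro w hw
        obtain ⟨y, hy, x, hx, rfl⟩ := mem_nxt.1 hw
        exact W₁.add_mem (h21 hy) (hNW W₁ h1 x hx)
      have h3 : Inv (Subgroup.closure {a, b}) ρ W₃ := by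
        intro h hh w hw
        obtain ⟨y, hy, x, hx, rfl⟩ := mem_nxt.1 hw
        refine mem_nxt.2 ⟨ρ h y, h2 h hh y hy, ρ h x, h1 h hh x hx, ?_⟩
        have hc : Commute (ρ z ^ K - 1) (ρ h) :=
          Commute.sub_left ((cen M ht hzl hh).pow_left K) (Commute.one_left _)
        rw [map_add, ← end_mul_apply, hc.eq, end_mul_apply]
      have p1 : Pss M K W₁ W₃ := by
        refine ih (fun z' hz' => hTW z' (Finset.mem_insert_of_mem hz')) W₁ W₃ h1 h3 h31 ?_ ?_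
        · intro z' hz' hz'T w hw
          by_cases e : z' = z
          · rw [e]
            exact mem_nxt.2 ⟨0, W₂.zero_mem, w, hw, zero_add _⟩
          · refine h23 (hz z' hz' ?_ w hw)
            rw [Finset.mem_insert]
            rintro (h | h)
            · exact e h
            · exact hz'T h
        · intro z' hz'
          obtain ⟨J', hJ'⟩ := hJ z' (Finset.mem_insert_of_mem hz')
          exact ⟨J', fun w hw => h23 (hJ' w hw)⟩
      have p2 : Pss M K W₃ W₂ := by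
        refine jh W₃ h3 h23 (fun z' hz' hz'T w hw => hz z' hz' hz'T w (h31 hw)) ?_ ?_
        · intro z' hz'
          obtain ⟨J', hJ'⟩ := hJ z' hz'
          exact ⟨J', fun w hw => hJ' w (h31 hw)⟩
        · intro w hw
          obtain ⟨y, hy, x, hx, rfl⟩ := mem_nxt.1 hw
          rw [map_add]
          refine W₂.add_mem ?_ ?_
          · clear jh hJz
            induction J with
            | zero => exact hy
            | succ J ih' =>
              rw [pow_succ', end_mul_apply]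
              exact hNW W₂ h2 _ ih'
          · rw [← end_mul_apply, ← pow_succ]
            exact hJz x hx
      exact p1.trans p2

end step

/-- the induction step -/
theorem pp_succ {k : ℕ} (hP : PP G k) : PP G (k + 1) := by
  classical
  rintro a b A B hS ht ⟨n₀, hn⟩
  obtain ⟨V, iV, π, ρ, hadd, hsurj, hker, hact⟩ :=
    exists_sec (Subgroup.closure {a, b}) A B hS.le hS.comm hS.nA hS.nB
  have M : Md (Subgroup.closure {a, b}) A B π ρ := ⟨hS.nA, hadd, hsurj, hker, hact⟩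
  have hq := qu_W hS M ht
  -- uniform exponents
  let S : Finset (AddMonoid.End V × V) :=
    ((W_finite a b k).toFinset.image ρ) ×ˢ ((W_finite a b n₀).toFinset.image π)
  obtain ⟨K, e, hK, hKe⟩ := uni S (by
    rintro ⟨X, w⟩ hp
    obtain ⟨h1, h2⟩ := Finset.mem_product.1 hp
    obtain ⟨z, hz, rfl⟩ := Finset.mem_image.1 h1
    exact hq z ((W_finite a b k).mem_toFinset.1 hz) w)
  have hKe' : ∀ z ∈ W a b k, ∀ w ∈ W a b n₀, ((ρ z ^ K - 1) ^ e) (π w) = 0 := by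
    intro z hz w hw
    exact hKe (ρ z, π w) (Finset.mem_product.2
      ⟨Finset.mem_image_of_mem _ ((W_finite a b k).mem_toFinset.2 hz),
        Finset.mem_image_of_mem _ ((W_finite a b n₀).mem_toFinset.2 hw)⟩)
  -- the subgroup W₁
  let W₁ : AddSubgroup V :=
    { carrier := {w | ∀ z ∈ W a b k, ((ρ z ^ K - 1) ^ e) w = 0}
      zero_mem' := fun z _ => map_zero _
      add_mem' := fun {x y} hx hy z hz => by rw [map_add, hx z hz, hy z hz, add_zero]
      neg_mem' := fun {x} hx z hz => by rw [map_neg, hx z hz, neg_zero] }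
  have h1 : Inv (Subgroup.closure {a, b}) ρ W₁ := by
    intro h hh w hw z hz
    have hc : Commute ((ρ z ^ K - 1) ^ e) (ρ h) :=
      (Commute.sub_left ((cen M ht (W_sub a b k z hz) hh).pow_left K) (Commute.one_left _)).pow_left e
    rw [← end_mul_apply, hc.eq, end_mul_apply, hw z hz, map_zero]
  have h2 : Inv (Subgroup.closure {a, b}) ρ (⊥ : AddSubgroup V) := by
    intro h _ w hw
    rw [(AddSubgroup.mem_bot.1 hw), map_zero]
    exact AddSubgroup.mem_bot.2 rfl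
  have h3 : lc (Subgroup.closure {a, b}) n₀ ≤ pre M W₁ := by
    refine lc_le_of_W a b n₀ _ (pre_nrm M h1) fun w hw => ?_
    exact ⟨hn (W_sub a b n₀ w hw), fun z hz => hKe' z hz w hw⟩
  have hch := pss_chain hP hS M ht (K := K) (W_finite a b k).toFinset
    (fun z hz => (W_finite a b k).mem_toFinset.1 hz) W₁ ⊥ h1 h2 bot_le
    (fun z hz hz' => absurd ((W_finite a b k).mem_toFinset.2 hz) hz')
    (fun z hz => ⟨e, fun w hw =>
      AddSubgroup.mem_bot.2 (hw z ((W_finite a b k).mem_toFinset.1 hz))⟩)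
  obtain ⟨m, hm, n, hn'⟩ := hch K hK (dvd_refl K)
    ⟨n₀, (lc_mono (closure_pow_le a b K) n₀).trans h3⟩
  refine ⟨K * m, Nat.mul_pos hK hm, n, hn'.trans ?_⟩
  rintro v ⟨hv, hv'⟩
  exact (hker v hv).1 (AddSubgroup.mem_bot.1 hv')

theorem pp (c : ℕ) : PP G c := by
  induction c with
  | zero => exact pp_zero
  | succ c ih => exact pp_succ ih

/-- the module step -/
theorem mod_step {a b : G} {A B : Subgroup G} (hS : Sc a b A B)
    (hn : ∃ n, lc (Subgroup.closure {a, b}) n ≤ A) :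
    ∃ m : ℕ, 1 ≤ m ∧ ∃ n, lc (Subgroup.closure {a ^ m, b ^ m}) n ≤ B := by
  obtain ⟨n, hn'⟩ := hn
  refine pp n a b A B hS (fun z hz v hv => ?_) ⟨n, hn'⟩
  exact hS.comm (Subgroup.commutator_mem_commutator (hn' hz) hv)

end Pool.Agent.Helper95.Sol
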