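import Mathlib
import Pool.Agent.Helper95.Sol.Mod

/-!
# Powers of two elements generate a nilpotent group
-/

set_option autoImplicit false

namespace Pool.Agent.Helper95.Sol

universe u

open scoped commutatorElement

variable {G : Type u} [Group G]

/-- derived series of a subgroup in the ambient group -/
def dr (H : Subgroup G) : ℕ → Subgroup G
  | 0 => H
  | n + 1 => ⁅dr H n, dr H n⁆

theorem dr_nrm (H : Subgroup G) (n : ℕ) : Nrm H (dr H n) := by
  induction n with
  | zero => exact Nrm.self H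
  | succ n ih => exact ih.comm ih

theorem dr_le (H : Subgroup G) (n : ℕ) : dr H n ≤ H := by
  induction n with
  | zero => exact le_refl _
  | succ n ih =>
    exact (Subgroup.commutator_mono ih ih).trans (comm_le_of_nrm (Nrm.self H))

theorem dr_succ_le (H : Subgroup G) (n : ℕ) : dr H (n + 1) ≤ dr H n :=
  comm_le_of_nrm (Nrm.self _)

theorem dr_le_one (H : Subgroup G) (n : ℕ) : dr H (n + 1) ≤ ⁅H, H⁆ :=
  Subgroup.commutator_mono (dr_le H n) (dr_le H n)

theorem map_derived (H : Subgroup G) (n : ℕ) :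
    (derivedSeries H n).map H.subtype = dr H n := by
  induction n with
  | zero =>
    rw [derivedSeries_zero, ← MonoidHom.range_eq_map, Subgroup.range_subtype]
    rfl
  | succ n ih =>
    rw [derivedSeries_succ, Subgroup.map_commutator, ih]
    rfl

theorem lc_eq (H : Subgroup G) (n : ℕ) : lc H n = H.lowerCentralSeries n := by
  induction n with
  | zero => rfl
  | succ n ih =>
    rw [Subgroup.lowerCentralSeries_succ, ← ih]
    rfl

theorem gt_aux (a b : G) (hq : ∀ k : ℕ, ∀ v ∈ dr (Subgroup.closure {a, b}) (k + 1),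
    (∃ K e : ℕ, 1 ≤ K ∧ (dl (a ^ K))^[e] v ∈ dr (Subgroup.closure {a, b}) (k + 2)) ∧
    ∃ K e : ℕ, 1 ≤ K ∧ (dl (b ^ K))^[e] v ∈ dr (Subgroup.closure {a, b}) (k + 2)) (k : ℕ) :
    ∃ m : ℕ, 1 ≤ m ∧ ∃ n, lc (Subgroup.closure {a ^ m, b ^ m}) n ≤
      dr (Subgroup.closure {a, b}) (k + 1) := by
  set H := Subgroup.closure ({a, b} : Set G) with hH
  induction k with
  | zero =>
    refine ⟨1, le_refl _, 1, ?_⟩
    rw [pow_one, pow_one]
    exact le_refl _
  | succ k ih =>
    obtain ⟨m, hm, n, hn⟩ := ih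
    have hS : Sc a b (dr H (k + 1)) (dr H (k + 2)) :=
      ⟨dr_succ_le H _, le_refl _, dr_nrm H _, dr_nrm H _, fun v hv => (hq k v hv).1,
        fun v hv => (hq k v hv).2⟩
    obtain ⟨V, iV, π, ρ, hadd, hsurj, hker, hact⟩ :=
      exists_sec H (dr H (k + 1)) (dr H (k + 2)) hS.le hS.comm hS.nA hS.nB
    have M : Md H (dr H (k + 1)) (dr H (k + 2)) π ρ := ⟨hS.nA, hadd, hsurj, hker, hact⟩
    have h1 : Inv H ρ (⊤ : AddSubgroup V) := fun _ _ _ _ => AddSubgroup.mem_top _
    have h2 : Inv H ρ (⊥ : AddSubgroup V) := by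
      intro h _ w hw
      rw [(AddSubgroup.mem_bot.1 hw), map_zero]
      exact AddSubgroup.mem_bot.2 rfl
    have hS' := hS.sub M h1 h2 bot_le m
    obtain ⟨m', hm', n', hn'⟩ := mod_step hS' ⟨n, fun v hv => ⟨hn hv, AddSubgroup.mem_top _⟩⟩
    refine ⟨m * m', Nat.mul_pos hm hm', n', ?_⟩
    rw [pow_mul, pow_mul]
    refine hn'.trans ?_
    rintro v ⟨hv, hv'⟩
    exact (hker v hv).1 (AddSubgroup.mem_bot.1 hv')

/-- If `⟨a, b⟩` is solvable and `a`, `b` act locally quasi-unipotently on the factors of its derived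
series (from the second one on), then some powers of `a` and `b` generate a nilpotent group. -/
theorem gt (a b : G) (hsol : Group.IsSolvable (Subgroup.closure ({a, b} : Set G)))
    (hq : ∀ k : ℕ, ∀ v ∈ dr (Subgroup.closure {a, b}) (k + 1),
    (∃ K e : ℕ, 1 ≤ K ∧ (dl (a ^ K))^[e] v ∈ dr (Subgroup.closure {a, b}) (k + 2)) ∧
    ∃ K e : ℕ, 1 ≤ K ∧ (dl (b ^ K))^[e] v ∈ dr (Subgroup.closure {a, b}) (k + 2)) :
    ∃ m : ℕ, 1 ≤ m ∧ Group.IsNilpotent (Subgroup.closure ({a ^ m, b ^ m} : Set G)) := by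
  obtain ⟨s, hs⟩ := (Group.isSolvable_def _).1 hsol
  have h0 : dr (Subgroup.closure ({a, b} : Set G)) s = ⊥ := by
    rw [← map_derived, hs, Subgroup.map_bot]
  obtain ⟨m, hm, n, hn⟩ := gt_aux a b hq s
  refine ⟨m, hm, (Subgroup.isNilpotent_iff_lowerCentralSeries _).2 ⟨n, ?_⟩⟩
  rw [← lc_eq, eq_bot_iff, ← h0]
  exact hn.trans (dr_succ_le _ s)

end Pool.Agent.Helper95.Sol
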