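import Pool.Agent.Helper95.Sol.Free
import Pool.Agent.Helper95.Sol.CRing

/-!
# Pairs of powers: free, or solvable-by-linear
-/

set_option autoImplicit false

open MeasureTheory Filter Topology
open scoped InnerProductSpace ComplexConjugate ArithmeticFunction.Moebius commutatorElement

namespace Pool.Agent.Helper95.Sol

open Pool.Agent.Helper40.Nil
open Pool.Agent.Helper40.Lin Pool.Agent.Helper40.Mob
open Pool.Agent.Helper79.Lin

universe u v w x

section

variable {A : Type u} [CStarAlgebra A] {Γ : Type v} [Group Γ] (G : Subgroup Γ) (h : Γ)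
  (hG : ∀ g, g ∈ G ↔ h * g * h⁻¹ ∈ G) (U : G →* unitary A)
  (hspan : ∀ a : A, a ∈ closure ((Submodule.span ℂ (Set.range fun g => (U g : A)) :
    Submodule ℂ A) : Set A))
  (τ : A →L[ℂ] ℂ) (hτ : IsState τ) (hτU : ∀ g, g ≠ 1 → τ (U g : A) = 0)
  (hfaith : ∀ a, (∀ x y, τ (x * a * y) = 0) → a = 0)
  (α : A →⋆ₐ[ℂ] A)
  (hα : ∀ g : G, α (U g : A) = (U ⟨h * g * h⁻¹, (hG g).1 g.2⟩ : A))

include hspan hτ hτU hfaith hα

/-- the case of singular invariant measures -/
theorem branch_sing (g : G) (Q : ℕ) (hQ : 1 ≤ Q)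
    (hS : SingPair (h ^ Q) ((g : Γ) * h ^ Q * (g : Γ)⁻¹))
    (ρ : A →L[ℂ] ℂ) (hρ : IsState ρ) (z : ℂ) (hz : ‖z‖ = 1) :
    Tendsto (fun N : ℕ => (∑ n ∈ Finset.range N, ((ArithmeticFunction.moebius n : ℤ) : ℂ) * z ^ n *
      ρ (α^[n] (U g : A))) / (N : ℂ)) atTop (𝓝 0) := by
  classical
  let θ : G → G := fun g => ⟨h * g * h⁻¹, (hG g).1 g.2⟩
  have hθ : ∀ (j : ℕ) (g : G), ((θ^[j] g : G) : Γ) = h ^ j * g * (h ^ j)⁻¹ := by
    intro j
    induction j with
    | zero => intro g; simp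
    | succ j ih =>
      intro g
      rw [Function.iterate_succ', Function.comp_apply]
      change h * ((θ^[j] g : G) : Γ) * h⁻¹ = _
      rw [ih, pow_succ']
      group
  obtain ⟨X, i1, i2, i3, i4, i5, t, s, hsing, κ, hκ⟩ := hS
  have hUm : ∀ g h, ∃ c : ℂ, (U g : A) * (U h : A) = c • (U (g * h) : A) := fun g h =>
    ⟨1, by rw [one_smul, map_mul]; rfl⟩
  have key := GENC (fun g => U g) hUm τ hτ hτU hfaith hspan θ α
    (fun g => ⟨1, by rw [one_smul]; exact hα g⟩) g Q hQ t s hsing (fun r _ => by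
      refine ⟨fun γ => κ ((g : Γ) * (h ^ r)⁻¹ * (γ : Γ)), fun γ => κ ((h ^ r)⁻¹ * (γ : Γ)),
        fun j γ => ?_⟩
      dsimp only
      rw [← hκ]
      congr 1
      rw [Subgroup.coe_mul, hθ, conj_pow, ← pow_mul]
      have e3 : h ^ (Q * j + r) = h ^ r * h ^ (Q * j) := by rw [← pow_add, add_comm]
      rw [e3]
      generalize h ^ (Q * j) = x
      generalize h ^ r = y
      group) ρ hρ
  rw [tendsto_zero_iff_norm_tendsto_zero]
  refine squeeze_zero (fun N => norm_nonneg _) (fun N => ?_) key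
  rw [norm_div, Complex.norm_natCast]
  gcongr
  refine (norm_sum_le _ _).trans (Finset.sum_le_sum fun n _ => ?_)
  rw [norm_mul, norm_mul, norm_pow, hz, one_pow, mul_one]
  calc _ ≤ 1 * ‖ρ (α^[n] (U g : A))‖ := by
        gcongr
        exact Pool.Agent.Helper40.Wiener.norm_moebius n
    _ = _ := one_mul _

end

/-- families of fields, Noetherian case -/
theorem family_of_noeth {L : Type v} [Group L] {R : Type x} [CommRing R] [IsNoetherianRing R]
    (n : ℕ) (f : L →* Matrix.GeneralLinearGroup (Fin n) R) (hf : Group.IsSolvable f.ker) :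
    ∃ (ι : Type x) (_ : Finite ι) (K : ι → Type x) (_ : ∀ i, Field (K i))
      (F : ∀ i, L →* Matrix.GeneralLinearGroup (Fin n) (K i)),
      Group.IsSolvable (⨅ i, (F i).ker : Subgroup L) := by
  classical
  have h0 : Finite (minimalPrimes R) := (minimalPrimes.finite_of_isNoetherianRing R).to_subtype
  have h1 : ∀ i : minimalPrimes R, (i.1 : Ideal R).IsPrime :=
    fun i => Ideal.IsMinimalPrime.isPrime i.2
  let F : ∀ i : minimalPrimes R, L →*
      Matrix.GeneralLinearGroup (Fin n) ((i.1 : Ideal R).ResidueField) :=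
    fun i => (Matrix.GeneralLinearGroup.map
      (algebraMap R ((i.1 : Ideal R).ResidueField))).comp f
  refine ⟨minimalPrimes R, h0, fun i => (i.1 : Ideal R).ResidueField, fun i => inferInstance, F, ?_⟩
  refine solv_ext f hf _ (⨅ i : minimalPrimes R, (Matrix.GeneralLinearGroup.map (n := Fin n)
    (algebraMap R ((i.1 : Ideal R).ResidueField))).ker) (solv_minimal n _ ?_) ?_
  · intro X hX P hP i j
    have h2 := Subgroup.mem_iInf.1 hX ⟨P, hP⟩
    rw [MonoidHom.mem_ker, map_eq_one] at h2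
    have h3 : P.IsPrime := h1 ⟨P, hP⟩
    exact Ideal.algebraMap_residueField_eq_zero.1 (h2 i j)
  · intro y hy
    rw [Subgroup.mem_comap, Subgroup.mem_iInf]
    intro i
    exact Subgroup.mem_iInf.1 hy i

/-- families of fields, general case -/
theorem family_of_ring {L : Type v} [Group L] (T : Set L) (hT : T.Finite)
    (hL : Subgroup.closure T = ⊤) {R : Type x} [CommRing R] (n : ℕ)
    (f : L →* Matrix.GeneralLinearGroup (Fin n) R) (hf : Group.IsSolvable f.ker) :
    ∃ (ι : Type x) (_ : Finite ι) (K : ι → Type x) (_ : ∀ i, Field (K i))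
      (F : ∀ i, L →* Matrix.GeneralLinearGroup (Fin n) (K i)),
      Group.IsSolvable (⨅ i, (F i).ker : Subgroup L) := by
  classical
  let E : Set R := ⋃ t ∈ T, (Set.range (fun p : Fin n × Fin n => (f t).1 p.1 p.2) ∪
    Set.range (fun p : Fin n × Fin n => (f t).2 p.1 p.2))
  have hE : E.Finite := hT.biUnion fun t _ => (Set.finite_range _).union (Set.finite_range _)
  let R₀ : Subring R := Subring.closure E
  have hN : IsNoetherianRing R₀ := is_noetherian_subring_closure E hE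
  let j := Matrix.GeneralLinearGroup.map (n := Fin n) R₀.subtype
  have hj : Function.Injective j := map_inj n R₀.subtype Subtype.val_injective
  have hr : ∀ γ, f γ ∈ j.range := by
    have h1 : (⊤ : Subgroup L) ≤ j.range.comap f := by
      rw [← hL, Subgroup.closure_le]
      intro t ht
      refine mem_range_map n R₀ (f t) (fun a b => ?_) (fun a b => ?_)
      · refine Subring.subset_closure (Set.mem_biUnion ht (Or.inl ⟨(a, b), rfl⟩))
      · refine Subring.subset_closure (Set.mem_biUnion ht (Or.inr ⟨(a, b), rfl⟩))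
    intro γ
    exact h1 (Subgroup.mem_top γ)
  let f₀ : L →* Matrix.GeneralLinearGroup (Fin n) R₀ :=
    (MonoidHom.ofInjective hj).symm.toMonoidHom.comp (f.codRestrict j.range hr)
  have hf₀ : ∀ γ, j (f₀ γ) = f γ := by
    intro γ
    exact MonoidHom.apply_ofInjective_symm hj _
  refine family_of_noeth n f₀ (solv_of_le ?_ hf)
  intro γ hγ
  rw [MonoidHom.mem_ker] at hγ ⊢
  rw [← hf₀, hγ, map_one]

theorem pair_le2 {Γ : Type v} [Group Γ] {Λ : Type x} [Group Λ] (f : Γ →* Λ) (a b : Γ) (q Q : ℕ)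
    (hq : q ∣ Q) : Subgroup.closure ({a ^ Q, b ^ Q} : Set Γ) ≤
      (Subgroup.closure ({(f a) ^ q, (f b) ^ q} : Set Λ)).comap f := by
  obtain ⟨c, rfl⟩ := hq
  refine (Subgroup.closure_le _).2 ?_
  intro y hy
  set T : Set Λ := {(f a) ^ q, (f b) ^ q} with hT
  have m1 : (f a) ^ q ∈ Subgroup.closure T :=
    Subgroup.subset_closure (Set.mem_insert _ _)
  have m2 : (f b) ^ q ∈ Subgroup.closure T :=
    Subgroup.subset_closure (Set.mem_insert_of_mem _ (Set.mem_singleton _))
  rcases hy with hy | hy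
  · have e : f y = ((f a) ^ q) ^ c := by rw [hy, map_pow, pow_mul]
    rw [SetLike.mem_coe, Subgroup.mem_comap, e]
    exact pow_mem m1 c
  · have e : f y = ((f b) ^ q) ^ c := by
      rw [Set.mem_singleton_iff.1 hy, map_pow, pow_mul]
    rw [SetLike.mem_coe, Subgroup.mem_comap, e]
    exact pow_mem m2 c

theorem solv_map {Γ : Type v} [Group Γ] {Λ : Type x} [Group Λ] (f : Γ →* Λ) (S : Subgroup Γ)
    (hS : Group.IsSolvable S) : Group.IsSolvable (S.map f) :=
  Group.isSolvable_of_surjective (f := f.subgroupMap S) (f.subgroupMap_surjective S)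

/-- the alternative for a pair generating a solvable-by-linear group -/
theorem alt_pair {Γ : Type v} [Group Γ] (a b : Γ) {R : Type x} [CommRing R] (n : ℕ)
    (f : Subgroup.closure ({a, b} : Set Γ) →* Matrix.GeneralLinearGroup (Fin n) R)
    (hf : Group.IsSolvable f.ker) :
    (∃ q : ℕ, 1 ≤ q ∧ SingPair (a ^ q) (b ^ q)) ∨
      ∃ q : ℕ, 1 ≤ q ∧ Group.IsSolvable (Subgroup.closure ({a ^ q, b ^ q} : Set Γ)) := by
  classical
  let M : Subgroup Γ := Subgroup.closure ({a, b} : Set Γ)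
  obtain ⟨ι, hι, K, hK, F, hF⟩ := family_of_ring (L := M) (Subtype.val ⁻¹' ({a, b} : Set Γ))
    (Set.Finite.preimage Subtype.val_injective.injOn (Set.toFinite _))
    Subgroup.closure_closure_coe_preimage n f hf
  have hfin : Fintype ι := Fintype.ofFinite ι
  let a' : M := ⟨a, Subgroup.subset_closure (Set.mem_insert _ _)⟩
  let b' : M := ⟨b, Subgroup.subset_closure (Set.mem_insert_of_mem _ (Set.mem_singleton _))⟩
  by_cases hs : ∃ i, ∀ q : ℕ, 1 ≤ q → ¬ SimTri ((F i a') ^ q).1 ((F i b') ^ q).1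
  · obtain ⟨i, hs⟩ := hs
    exact Or.inl (sing_rep a b n (F i) a' b' rfl rfl hs)
  · right
    push Not at hs
    choose q hq hs using hs
    refine ⟨∏ i, q i, Finset.one_le_prod' fun i _ => hq i, ?_⟩
    let S : ∀ i, Subgroup (Matrix.GeneralLinearGroup (Fin n) (K i)) := fun i =>
      Subgroup.closure {(F i a') ^ q i, (F i b') ^ q i}
    have hS : ∀ i, Group.IsSolvable (S i) := by
      intro i
      exact solv_of_nil _ (st_TRIN (K i) n _ _ (hs i))
    have h1 := solv_family F hF (Subgroup.closure ({a' ^ (∏ i, q i), b' ^ (∏ i, q i)} : Set M))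
      S hS fun i => pair_le2 (F i) a' b' (q i) _ (Finset.dvd_prod_of_mem q (Finset.mem_univ i))
    have h2 : Subgroup.closure ({a ^ (∏ i, q i), b ^ (∏ i, q i)} : Set Γ) ≤
        (Subgroup.closure ({a' ^ (∏ i, q i), b' ^ (∏ i, q i)} : Set M)).map M.subtype := by
      refine (Subgroup.closure_le _).2 ?_
      intro y hy
      rcases hy with hy | hy
      · exact ⟨a' ^ (∏ i, q i), Subgroup.subset_closure (Set.mem_insert _ _), hy.symm⟩
      · exact ⟨b' ^ (∏ i, q i), Subgroup.subset_closure (Set.mem_insert_of_mem _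
          (Set.mem_singleton _)), (Set.mem_singleton_iff.1 hy).symm⟩
    exact solv_of_le h2 (solv_map _ _ h1)

/-- Twisted disjointness for conjugations when for each `g` some power `h ^ q` and its conjugate
`g * h ^ q * g⁻¹` generate a solvable-by-linear group, or are a basis of a free group. -/
theorem td_pair {A : Type u} [CStarAlgebra A] {Γ : Type v} [Group Γ] (G : Subgroup Γ) (h : Γ)
    (U : G →* unitary A) (hU : IsReducedAlgebra U) (α : A →⋆ₐ[ℂ] A)
    (hα' : IsConjugation G h U α) {H : Type w} [NormedAddCommGroup H] [InnerProductSpace ℂ H]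
    [CompleteSpace H] (π : A →⋆ₐ[ℂ] (H →L[ℂ] H)) (hπ : Function.Injective π)
    (hlow : ZeroLowerEntropy π α)
    (hΓ : ∀ g ∈ G, ∃ q : ℕ, 1 ≤ q ∧ ((∃ (R : Type x) (_ : CommRing R) (n : ℕ)
      (f : Subgroup.closure ({h ^ q, g * h ^ q * g⁻¹} : Set Γ) →*
        Matrix.GeneralLinearGroup (Fin n) R), Group.IsSolvable f.ker) ∨
      Function.Injective (FreeGroup.lift (![h ^ q, g * h ^ q * g⁻¹] : Fin 2 → Γ)))) (a : A) :
    TwistedDisjoint α a := by
  classical
  have hent : ZeroEntropy π α := zeroEntropy_of_lower π α hlow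
  obtain ⟨hspan, τ, hτ, hτU, hfaith⟩ := hU
  have hG := hα'.1
  have hα : ∀ g : G, α (U g : A) = (U ⟨h * g * h⁻¹, (hG g).1 g.2⟩ : A) :=
    fun g => hα'.2 g _ rfl
  apply td_of_gen (fun g : G => (U g : A)) hspan α
  intro g ρ hρ z hz
  obtain ⟨q, hq, halt⟩ := hΓ g g.2
  have e1 : ∀ k : ℕ, (h ^ q) ^ k = h ^ (q * k) := fun k => (pow_mul h q k).symm
  have e2 : ∀ k : ℕ, ((g : Γ) * h ^ q * (g : Γ)⁻¹) ^ k = (g : Γ) * h ^ (q * k) * (g : Γ)⁻¹ :=
    fun k => by rw [conj_pow, pow_mul]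
  have hsing : (∃ k : ℕ, 1 ≤ k ∧ SingPair ((h ^ q) ^ k) (((g : Γ) * h ^ q * (g : Γ)⁻¹) ^ k)) →
      Tendsto (fun N : ℕ => (∑ n ∈ Finset.range N, ((ArithmeticFunction.moebius n : ℤ) : ℂ) *
        z ^ n * ρ (α^[n] (U g : A))) / (N : ℂ)) atTop (𝓝 0) := by
    rintro ⟨k, hk, hS⟩
    rw [e1, e2] at hS
    exact branch_sing G h hG U hspan τ hτ hτU hfaith α hα g (q * k) (Nat.mul_pos hq hk) hS ρ hρ z hz
  rcases halt with ⟨R, _, n, f, hf⟩ | hfree
  · rcases alt_pair (h ^ q) ((g : Γ) * h ^ q * (g : Γ)⁻¹) n f hf with hS | ⟨k, hk, hS⟩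
    · exact hsing hS
    · rw [e1, e2] at hS
      exact branch_solv G h hG U τ hτ hτU α hα π hπ hent g (q * k) (Nat.mul_pos hq hk) hS ρ hρ z hz
  · exact hsing (free_sing _ _ hfree)

end Pool.Agent.Helper95.Sol
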