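import Pool.Agent.Helper40.Nil.All
import Pool.Agent.Helper40.Nil.EConv
import Pool.Agent.Helper40.Nil.REDc
import Pool.Agent.Helper95.Sol.ENTS
import Pool.Agent.Helper95.Sol.DR

/-!
# Solvable-by-linear groups
-/

set_option autoImplicit false

open MeasureTheory Filter Topology
open scoped InnerProductSpace ComplexConjugate ArithmeticFunction.Moebius commutatorElement

namespace Pool.Agent.Helper95.Sol

open Pool.Agent.Helper40.Nil
open Pool.Agent.Helper40.Lin Pool.Agent.Helper40.Mob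
open Pool.Agent.Helper79.Lin

universe u v w x

section

variable {A : Type u} [CStarAlgebra A] {Γ : Type v} [Group Γ] (G : Subgroup Γ) (h : Γ)
  (hG : ∀ g, g ∈ G ↔ h * g * h⁻¹ ∈ G) (U : G →* unitary A)
  (hspan : ∀ a : A, a ∈ closure ((Submodule.span ℂ (Set.range fun g => (U g : A)) :
    Submodule ℂ A) : Set A))
  (τ : A →L[ℂ] ℂ) (hτ : IsState τ) (hτU : ∀ g, g ≠ 1 → τ (U g : A) = 0)
  (hfaith : ∀ a, (∀ x y, τ (x * a * y) = 0) → a = 0)
  (α : A →⋆ₐ[ℂ] A)
  (hα : ∀ g : G, α (U g : A) = (U ⟨h * g * h⁻¹, (hG g).1 g.2⟩ : A))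

include hspan hτ hτU hfaith hα

/-- the case of a linear representation without simultaneous triangularization -/
theorem branch_lin {K : Type x} [Field K] (n : ℕ)
    (f : Γ →* Matrix.GeneralLinearGroup (Fin n) K) (g : G)
    (hs : ∀ q : ℕ, 1 ≤ q → ¬ SimTri ((f h) ^ q).1 ((f g * f h * (f g)⁻¹) ^ q).1)
    (ρ : A →L[ℂ] ℂ) (hρ : IsState ρ) (z : ℂ) (hz : ‖z‖ = 1) :
    Tendsto (fun N : ℕ => (∑ n ∈ Finset.range N, ((ArithmeticFunction.moebius n : ℤ) : ℂ) * z ^ n *
      ρ (α^[n] (U g : A))) / (N : ℂ)) atTop (𝓝 0) := by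
  classical
  let θ : G → G := fun g => ⟨h * g * h⁻¹, (hG g).1 g.2⟩
  have hθ : ∀ (j : ℕ) (g : G), ((θ^[j] g : G) : Γ) = h ^ j * g * (h ^ j)⁻¹ := by
    intro j
    induction j with
    | zero => intro g; simp
    | succ j ih =>
      intro g
      rw [Function.iterate_succ', Function.comp_apply]
      change h * ((θ^[j] g : G) : Γ) * h⁻¹ = _
      rw [ih, pow_succ']
      group
  obtain ⟨q, hq, X, i1, i2, i3, i4, i5, t, s, hsing, hκ⟩ := SPACE2 n (f h) (f g) hs
  have hUm : ∀ g h, ∃ c : ℂ, (U g : A) * (U h : A) = c • (U (g * h) : A) := fun g h =>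
    ⟨1, by rw [one_smul, map_mul]; rfl⟩
  have key := GENC (fun g => U g) hUm τ hτ hτU hfaith hspan θ α
    (fun g => ⟨1, by rw [one_smul]; exact hα g⟩) g q hq t s hsing (fun r _ => by
      obtain ⟨κin, κout, hκ⟩ := hκ r
      refine ⟨fun γ => κin (f γ), fun γ => κout (f γ), fun j γ => ?_⟩
      rw [← hκ]
      change κout _ = _
      congr 1
      rw [Subgroup.coe_mul, hθ, map_mul, map_mul, map_mul, map_inv, map_pow]) ρ hρ
  rw [tendsto_zero_iff_norm_tendsto_zero]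
  refine squeeze_zero (fun N => norm_nonneg _) (fun N => ?_) key
  rw [norm_div, Complex.norm_natCast]
  gcongr
  refine (norm_sum_le _ _).trans (Finset.sum_le_sum fun n _ => ?_)
  rw [norm_mul, norm_mul, norm_pow, hz, one_pow, mul_one]
  calc _ ≤ 1 * ‖ρ (α^[n] (U g : A))‖ := by
        gcongr
        exact Pool.Agent.Helper40.Wiener.norm_moebius n
    _ = _ := one_mul _

omit hspan hfaith

/-- the case of two powers generating a solvable group -/
theorem branch_solv {H : Type w} [NormedAddCommGroup H] [InnerProductSpace ℂ H] [CompleteSpace H]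
    (π : A →⋆ₐ[ℂ] (H →L[ℂ] H)) (hπ : Function.Injective π) (hent : ZeroEntropy π α) (g : G)
    (q : ℕ) (hq : 1 ≤ q)
    (hsolv : Group.IsSolvable (Subgroup.closure ({h ^ q, (g : Γ) * h ^ q * (g : Γ)⁻¹} : Set Γ)))
    (ρ : A →L[ℂ] ℂ) (hρ : IsState ρ) (z : ℂ) (hz : ‖z‖ = 1) :
    Tendsto (fun N : ℕ => (∑ n ∈ Finset.range N, ((ArithmeticFunction.moebius n : ℤ) : ℂ) * z ^ n *
      ρ (α^[n] (U g : A))) / (N : ℂ)) atTop (𝓝 0) := by
  set a₀ : Γ := h ^ q with ha0
  set b₀ : Γ := (g : Γ) * h ^ q * (g : Γ)⁻¹ with hb0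
  have hGq : ∀ j : ℕ, ∀ x, x ∈ G ↔ h ^ j * x * (h ^ j)⁻¹ ∈ G := by
    intro j
    induction j with
    | zero => intro x; simp
    | succ j ih =>
      intro x
      rw [ih, hG]
      have : h * (h ^ j * x * (h ^ j)⁻¹) * h⁻¹ = h ^ (j + 1) * x * (h ^ (j + 1))⁻¹ := by
        rw [pow_succ']; group
      rw [this]
  have hDG := st_COMG Γ G a₀ g (hGq q) g.2
  set L := Subgroup.closure ({a₀, b₀} : Set Γ) with hL
  have hdrG : ∀ k, dr L (k + 1) ≤ G := fun k => (dr_le_one L k).trans hDG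
  have hdrS : ∀ k, Group.IsSolvable (dr L k) := fun k => solv_of_le (dr_le L k) hsolv
  have hiff : ∀ k, ∀ t ∈ L, ∀ y, y ∈ dr L k ↔ t * y * t⁻¹ ∈ dr L k := by
    intro k t ht y
    refine ⟨fun hy => dr_nrm L k t ht y hy, fun hy => ?_⟩
    have h1 := dr_nrm L k t⁻¹ (inv_mem ht) _ hy
    have e : t⁻¹ * (t * y * t⁻¹) * t⁻¹⁻¹ = y := by group
    rwa [e] at h1
  have haL : a₀ ∈ L := Subgroup.subset_closure (Set.mem_insert _ _)
  have hbL : b₀ ∈ L := Subgroup.subset_closure (Set.mem_insert_of_mem _ rfl)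
  obtain ⟨m, hm, hnil⟩ := gt a₀ b₀ hsolv (fun k y hy => by
    constructor
    · have h1 := ents (st_ENTLOW (st_NCK st_NCKM)) st_L1 (st_MODL st_RU) A Γ G h hG U τ hτ hτU α hα
        H π hπ hent 1 (one_mem _) q hq (dr L (k + 1)) (hdrG k) (hdrS _)
        (by simpa using hiff (k + 1) a₀ haL) y hy
      simp only [one_mul, inv_one, mul_one] at h1
      obtain ⟨K', e, hK', he⟩ := h1
      exact ⟨K', e, hK', he⟩
    · obtain ⟨K', e, hK', he⟩ := ents (st_ENTLOW (st_NCK st_NCKM)) st_L1 (st_MODL st_RU) A Γ G h hG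
        U τ hτ hτU α hα H π hπ hent g g.2 q hq (dr L (k + 1)) (hdrG k) (hdrS _)
        (hiff (k + 1) b₀ hbL) y hy
      exact ⟨K', e, hK', he⟩)
  have e1 : a₀ ^ m = h ^ (q * m) := by rw [ha0, pow_mul]
  have e2 : b₀ ^ m = g * h ^ (q * m) * (g : Γ)⁻¹ := by rw [hb0, conj_pow, pow_mul]
  rw [e1, e2] at hnil
  exact all_APP A Γ G h hG U α hα g (q * m) (Nat.mul_pos hq hm) hnil z hz ρ hρ

end

/-- Finite families of linear representations over fields with solvable common kernel. -/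
theorem good_of_family {Γ : Type v} [Group Γ] {ι : Type x} [Finite ι] (K : ι → Type x)
    [∀ i, Field (K i)] (n : ι → ℕ) (f : ∀ i, Γ →* Matrix.GeneralLinearGroup (Fin (n i)) (K i))
    (hf : Group.IsSolvable (⨅ i, (f i).ker : Subgroup Γ)) : GoodGroup.{u, v, w} Γ := by
  classical
  have hfin : Fintype ι := Fintype.ofFinite ι
  intro G h A _ U hU α hα' H _ _ _ π hπ hlow a
  have hent : ZeroEntropy π α := zeroEntropy_of_lower π α hlow
  obtain ⟨hspan, τ, hτ, hτU, hfaith⟩ := hU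
  have hG := hα'.1
  have hα : ∀ g : G, α (U g : A) = (U ⟨h * g * h⁻¹, (hG g).1 g.2⟩ : A) :=
    fun g => hα'.2 g _ rfl
  apply td_of_gen (fun g : G => (U g : A)) hspan α
  intro g ρ hρ z hz
  by_cases hs : ∃ i, ∀ q : ℕ, 1 ≤ q →
      ¬ SimTri ((f i h) ^ q).1 ((f i g * f i h * (f i g)⁻¹) ^ q).1
  · obtain ⟨i, hs⟩ := hs
    exact branch_lin G h hG U hspan τ hτ hτU hfaith α hα (n i) (f i) g hs ρ hρ z hz
  · push Not at hs
    choose q hq hs using hs
    -- the common exponent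
    set Q : ℕ := ∏ i, q i with hQ
    have hQ1 : 1 ≤ Q := Finset.one_le_prod' fun i _ => hq i
    refine branch_solv G h hG U τ hτ hτU α hα π hπ hent g Q hQ1 ?_ ρ hρ z hz
    let S : ∀ i, Subgroup (Matrix.GeneralLinearGroup (Fin (n i)) (K i)) := fun i =>
      Subgroup.closure {(f i h) ^ q i, f i g * (f i h) ^ q i * (f i g)⁻¹}
    have hS : ∀ i, Group.IsSolvable (S i) := by
      intro i
      have h1 := hs i
      rw [conj_pow] at h1
      exact solv_of_nil _ (st_TRIN (K i) (n i) _ _ h1)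
    refine solv_family f hf _ S hS fun i => ?_
    exact pair_le (f i) h (g : Γ) (q i) Q (Finset.dvd_prod_of_mem q (Finset.mem_univ i))

/-- Solvable-by-linear groups are good. -/
theorem good_of_solvable_ker {Γ : Type v} [Group Γ] {K : Type x} [Field K] (n : ℕ)
    (f : Γ →* Matrix.GeneralLinearGroup (Fin n) K) (hf : Group.IsSolvable f.ker) :
    GoodGroup.{u, v, w} Γ := by
  refine good_of_family (ι := PUnit.{x + 1}) (fun _ => K) (fun _ => n) (fun _ => f) ?_
  rw [iInf_const]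
  exact hf

end Pool.Agent.Helper95.Sol
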