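import Pool.Agent.Helper40.Nil.SPACE2
import Pool.Agent.Helper40.Nil.All
import Pool.Agent.Helper40.Nil.REDc
import Pool.Agent.Helper95.Sol.DR

/-!
# Pairs with mutually singular invariant measures
-/

set_option autoImplicit false

open MeasureTheory Filter Topology
open scoped LinearAlgebra.Projectivization Matrix InnerProductSpace ComplexConjugate

namespace Pool.Agent.Helper95.Sol

open Pool.Agent.Helper40.Nil
open Pool.Agent.Helper40.Lin Pool.Agent.Helper40.Mob
open Pool.Agent.Helper26.Lin Pool.Agent.Helper44.Lin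
open Pool.Agent.Helper79.Lin

universe u v w x

/-- `a` and `b` act on a compact space with mutually singular invariant measures, compatibly with
left multiplication on `Γ` -/
def SingPair {Γ : Type v} [Group Γ] (a b : Γ) : Prop :=
  ∃ (X : Type) (_ : TopologicalSpace X) (_ : CompactSpace X) (_ : T2Space X)
    (_ : MeasurableSpace X) (_ : BorelSpace X) (t s : X ≃ₜ X),
    (∀ ν ρ : Measure X, IsFiniteMeasure ν → IsFiniteMeasure ρ → Measure.map t ν = ν →
      Measure.map s ρ = ρ → ν ⟂ₘ ρ) ∧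
    ∃ κ : Γ → X, ∀ (j : ℕ) (γ : Γ), κ (a ^ j * (b ^ j)⁻¹ * γ) = t^[j] (s^[j] (κ γ))

/-- linear representations of the group generated by `a` and `b` -/
theorem sing_rep {Γ : Type v} [Group Γ] (a b : Γ) {K : Type x} [Field K] (n : ℕ)
    (f : Subgroup.closure ({a, b} : Set Γ) →* Matrix.GeneralLinearGroup (Fin n) K)
    (a' b' : Subgroup.closure ({a, b} : Set Γ)) (ha : (a' : Γ) = a) (hb : (b' : Γ) = b)
    (hns : ∀ q : ℕ, 1 ≤ q → ¬ SimTri ((f a') ^ q).1 ((f b') ^ q).1) :
    ∃ q : ℕ, 1 ≤ q ∧ SingPair (a ^ q) (b ^ q) := by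
  classical
  set A := f a' with hA
  set B := (f b')⁻¹ with hB
  obtain ⟨q, hq, m, hm, k, i1, i2, ψ, hirr, hunb⟩ := Pool.Agent.Helper94.Lin.ALG3_of
    (fun n t s h => Pool.Agent.Helper37.Lin.ALG1 n t s h)
    (alg2_any (AlgebraicClosure K)) n A B (fun q hq hs => by
    apply hns q hq
    have h1 := SimTri.inv_right hs
    have h2 : (B ^ q)⁻¹ = (f b') ^ q := by
      rw [hB, inv_pow, inv_inv]
    rwa [h2] at h1)
  refine ⟨q, hq, ?_⟩
  let T : Subgroup (Matrix.GeneralLinearGroup (Fin n) K) := Subgroup.closure ({A ^ q, B ^ q} :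
    Set (Matrix.GeneralLinearGroup (Fin n) K))
  let t₀ : T := ⟨A ^ q, Subgroup.subset_closure (by simp)⟩
  let s₀ : T := ⟨B ^ q, Subgroup.subset_closure (by simp)⟩
  have hcomp : CompactSpace (PS k m) := PT1 m
  have ht2 : T2Space (PS k m) := PT2 m
  let homeo : Matrix.GeneralLinearGroup (Fin m) k → (PS k m ≃ₜ PS k m) := fun a =>
    { toFun := act a
      invFun := act a⁻¹
      left_inv := fun x => by rw [← (PT4 m a⁻¹ a x).1, inv_mul_cancel, (PT4 m a⁻¹ a x).2]
      right_inv := fun x => by rw [← (PT4 m a a⁻¹ x).1, mul_inv_cancel, (PT4 m a a⁻¹ x).2]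
      continuous_toFun := PT3 m a
      continuous_invFun := PT3 m a⁻¹ }
  have hiter : ∀ (a : Matrix.GeneralLinearGroup (Fin m) k) (j : ℕ) (x : PS k m),
      (homeo a)^[j] x = act (a ^ j) x := by
    intro a j
    induction j with
    | zero => intro x; simpa using (PT4 m a a x).2.symm
    | succ j ih =>
      intro x
      rw [Function.iterate_succ, Function.comp_apply, ih, pow_succ, (PT4 m (a ^ j) a x).1]
      rfl
  refine ⟨PS k m, inferInstance, hcomp, ht2, inferInstance, inferInstance,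
    homeo (ψ t₀), homeo (ψ s₀), ?_, ?_⟩
  · intro ν ρ hν1 hρ1 hν hρ
    exact SING m (ψ t₀) (ψ s₀) hirr hunb ν ρ hν hρ
  · have : NeZero m := ⟨by omega⟩
    let o : PS k m := (Projectivization.mk k (fun _ => (1 : k)) (by
      intro h0
      have := congrFun h0 (0 : Fin m)
      simp at this) : ℙ k (Fin m → k))
    let M : Subgroup Γ := Subgroup.closure ({a, b} : Set Γ)
    let L : Subgroup Γ := (T.comap f).map M.subtype
    have hLM : ∀ y : L, (y : Γ) ∈ M := by
      rintro ⟨y, z, hz, rfl⟩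
      exact z.2
    have hLT : ∀ y : L, f ⟨y, hLM y⟩ ∈ T := by
      rintro ⟨y, z, hz, rfl⟩
      exact hz
    let F : L →* T :=
      { toFun := fun y => ⟨f ⟨y, hLM y⟩, hLT y⟩
        map_one' := Subtype.ext (by
          show f ⟨((1 : L) : Γ), _⟩ = 1
          exact map_one f)
        map_mul' := fun y z => Subtype.ext (by
          show f ⟨((y * z : L) : Γ), _⟩ = f ⟨y, _⟩ * f ⟨z, _⟩
          rw [← map_mul]
          rfl) }
    obtain ⟨R, hR⟩ := exists_section L
    have hLa : a ^ q ∈ L := by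
      refine ⟨a' ^ q, ?_, ?_⟩
      · show f (a' ^ q) ∈ T
        rw [map_pow]
        exact t₀.2
      · show ((a' ^ q : M) : Γ) = a ^ q
        rw [Subgroup.coe_pow, ha]
    have hLb : (b ^ q)⁻¹ ∈ L := by
      refine ⟨(b' ^ q)⁻¹, ?_, ?_⟩
      · show f (b' ^ q)⁻¹ ∈ T
        rw [map_inv, map_pow, ← inv_pow]
        exact s₀.2
      · show (((b' ^ q)⁻¹ : M) : Γ) = (b ^ q)⁻¹
        rw [Subgroup.coe_inv, Subgroup.coe_pow, hb]
    have hFa : F ⟨a ^ q, hLa⟩ = t₀ := by
      apply Subtype.ext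
      show f ⟨a ^ q, _⟩ = A ^ q
      rw [hA, ← map_pow]
      congr 1
      apply Subtype.ext
      show a ^ q = ((a' ^ q : M) : Γ)
      rw [Subgroup.coe_pow, ha]
    have hFb : F ⟨(b ^ q)⁻¹, hLb⟩ = s₀ := by
      apply Subtype.ext
      show f ⟨(b ^ q)⁻¹, _⟩ = B ^ q
      rw [hB, inv_pow, ← map_pow, ← map_inv]
      congr 1
      apply Subtype.ext
      show (b ^ q)⁻¹ = (((b' ^ q)⁻¹ : M) : Γ)
      rw [Subgroup.coe_inv, Subgroup.coe_pow, hb]
    refine ⟨fun γ => act (ψ (F (R γ))) o, fun j γ => ?_⟩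
    have key : F (R ((a ^ q) ^ j * ((b ^ q) ^ j)⁻¹ * γ)) = t₀ ^ j * s₀ ^ j * F (R γ) := by
      have e1 : (a ^ q) ^ j * ((b ^ q) ^ j)⁻¹ * γ =
          (((⟨a ^ q, hLa⟩ : L) ^ j * (⟨(b ^ q)⁻¹, hLb⟩ : L) ^ j : L) : Γ) * γ := by
        rw [Subgroup.coe_mul, Subgroup.coe_pow, Subgroup.coe_pow, inv_pow]
      rw [e1, hR, map_mul, map_mul, map_pow, map_pow, hFa, hFb]
    rw [hiter, hiter]
    dsimp only
    rw [key, ← (PT4 m _ _ _).1, ← (PT4 m _ _ _).1]
    congr 1
    exact ((map_mul ψ _ _).trans (congrArg₂ _ ((map_mul ψ _ _).trans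
      (congrArg₂ _ (map_pow ψ _ _) (map_pow ψ _ _))) rfl))

end Pool.Agent.Helper95.Sol
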